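import Mathlib

set_option autoImplicit false

namespace Pool.Agent.H166R2.VC

open Finset

/-- `G` has no proper colouring with `q` colours. -/
def NoCol {V : Type} (q : ℕ) (G : SimpleGraph V) : Prop :=
  ∀ f : V → Fin q, ∃ x y, G.Adj x y ∧ f x = f y

/-- Every vertex-deleted subgraph of `G` has a proper colouring with `q` colours. -/
def VCol {V : Type} (q : ℕ) (G : SimpleGraph V) : Prop :=
  ∀ v, ∃ f : V → Fin q, ∀ x y, x ≠ v → y ≠ v → G.Adj x y → f x ≠ f y

/-! ### Alternating colouring of a broken cycle -/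

section Cycle

variable {g : ℕ} [NeZero g]

/-- parity of the distance from `b`. -/
def alt (b i : ZMod g) : Bool := decide ((i - b).val % 2 = 1)

theorem alt_ne (hg : 1 < g) (b i : ZMod g) (h : i + 1 ≠ b) : alt b (i + 1) ≠ alt b i := by
  have : Fact (1 < g) := ⟨hg⟩
  have h1 : (i + 1 - b) = (i - b) + 1 := by ring
  have hv : (i - b).val + (1 : ZMod g).val < g := by
    rw [ZMod.val_one]
    have hlt := ZMod.val_lt (i - b)
    rcases Nat.lt_or_ge ((i - b).val + 1) g with h2 | h2
    · exact h2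
    · exfalso
      have h3 : (i - b).val + 1 = g := by omega
      have h4 : ((i - b) + 1 : ZMod g) = 0 := by
        have h5 : (((i - b).val + 1 : ℕ) : ZMod g) = ((g : ℕ) : ZMod g) := by rw [h3]
        rw [Nat.cast_add, ZMod.natCast_zmod_val, ZMod.natCast_self, Nat.cast_one] at h5
        exact h5
      apply h
      have : i + 1 - b = 0 := by rw [h1, h4]
      exact sub_eq_zero.mp this
  have h2 : (i + 1 - b).val = (i - b).val + 1 := by
    rw [h1, ZMod.val_add_of_lt hv, ZMod.val_one]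
  unfold alt
  rw [h2]
  intro hc
  have := decide_eq_decide.mp hc
  omega

theorem odd_cycle (hodd : g % 2 = 1) (b : ZMod g → Bool) : ∃ i, b (i + 1) = b i := by
  by_contra hcon
  push Not at hcon
  have key : ∀ n : ℕ, b (n : ZMod g) = (if n % 2 = 0 then b 0 else !(b 0)) := by
    intro n
    induction n with
    | zero => simp
    | succ n ih =>
      have h1 := hcon (n : ZMod g)
      have h2 : ((n + 1 : ℕ) : ZMod g) = (n : ZMod g) + 1 := by push_cast; ring
      rw [h2]
      have h3 : b ((n : ZMod g) + 1) = !(b (n : ZMod g)) := by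
        revert h1
        cases b ((n : ZMod g) + 1) <;> cases b (n : ZMod g) <;> simp
      rw [h3, ih]
      by_cases h : n % 2 = 0
      · have h' : ¬ (n + 1) % 2 = 0 := by omega
        rw [if_pos h, if_neg h']
      · have h' : (n + 1) % 2 = 0 := by omega
        rw [if_neg h, if_pos h']
        simp
  have h := key g
  rw [if_neg (by omega), ZMod.natCast_self] at h
  revert h
  cases b 0 <;> simp

end Cycle

/-! ### The construction -/

section Constr

variable {s g : ℕ} (ρ : ZMod s → ZMod g → ℕ)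

/-- The dense part: `s` parts, each split into `g` groups. -/
abbrev Y : Type := Σ a : ZMod s × ZMod g, Fin (ρ a.1 a.2)

/-- Pairs of the star between the group `a` and a group `b` of the next part that are missing. -/
def Bad (a : ZMod s × ZMod g) (t : ℕ) (b : ZMod s × ZMod g) : Prop :=
  b.1 = a.1 + 1 ∧ 1 ≤ (b.2 - a.2).val ∧ (b.2 - a.2).val ≤ ρ a.1 a.2 ∧ (b.2 - a.2).val ≠ t + 1

/-- Adjacency. -/
def R : Y ρ ⊕ (ZMod s × ZMod g) → Y ρ ⊕ (ZMod s × ZMod g) → Prop
  | Sum.inl x, Sum.inl y => x.1.1 ≠ y.1.1 ∧ ¬ Bad ρ x.1 x.2 y.1 ∧ ¬ Bad ρ y.1 y.2 x.1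
  | Sum.inl x, Sum.inr w => x.1.1 ≠ w.1 ∧ x.1.2 = w.2
  | Sum.inr w, Sum.inl x => x.1.1 ≠ w.1 ∧ x.1.2 = w.2
  | Sum.inr w, Sum.inr v => w.1 = v.1 ∧ w.2 ≠ v.2 ∧ (v.2 = w.2 + 1 ∨ w.2 = v.2 + 1)

/-- The graph. -/
def Gr : SimpleGraph (Y ρ ⊕ (ZMod s × ZMod g)) where
  Adj := R ρ
  symm := ⟨by
    intro x y h
    cases x with
    | inl x =>
      cases y with
      | inl y => exact ⟨h.1.symm, h.2.2, h.2.1⟩
      | inr w => exact h
    | inr w =>
      cases y with
      | inl y => exact h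
      | inr v => exact ⟨h.1.symm, h.2.1.symm, h.2.2.symm⟩⟩
  loopless := ⟨by
    intro x h
    cases x with
    | inl x => exact h.1 rfl
    | inr w => exact h.2.1 rfl⟩

/-- Two groups of different parts are joined by an edge. -/
theorem exists_adj [NeZero g] [Fact (1 < s)] {B : ℕ} (hρ1 : ∀ q j, 1 ≤ ρ q j)
    (hρ : ∀ q j, ρ q j ≤ B) (hB : 2 * B < g)
    {a b : ZMod s × ZMod g} (hab : a.1 ≠ b.1) :
    ∃ (t : Fin (ρ a.1 a.2)) (u : Fin (ρ b.1 b.2)),
      (Gr ρ).Adj (Sum.inl ⟨a, t⟩) (Sum.inl ⟨b, u⟩) := by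
  have hneg : ∀ (x y : ZMod g), 1 ≤ (x - y).val → (x - y).val ≤ B → 1 ≤ (y - x).val →
      (y - x).val ≤ B → False := by
    intro x y h1 h2 h3 h4
    have h5 : (x - y) + (y - x) = 0 := by ring
    have h6 : ((x - y) + (y - x)).val = (x - y).val + (y - x).val :=
      ZMod.val_add_of_lt (by omega)
    rw [h5, ZMod.val_zero] at h6
    omega
  by_cases hA : b.1 = a.1 + 1 ∧ 1 ≤ (b.2 - a.2).val ∧ (b.2 - a.2).val ≤ ρ a.1 a.2
  · obtain ⟨h1, h2, h3⟩ := hA
    refine ⟨⟨(b.2 - a.2).val - 1, by omega⟩, ⟨0, hρ1 _ _⟩, hab, ?_, ?_⟩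
    · rintro ⟨_, _, _, h4⟩
      simp only at h4
      omega
    · rintro ⟨_, h5, h6, _⟩
      exact hneg _ _ h2 (h3.trans (hρ _ _)) h5 (h6.trans (hρ _ _))
  · by_cases hA' : a.1 = b.1 + 1 ∧ 1 ≤ (a.2 - b.2).val ∧ (a.2 - b.2).val ≤ ρ b.1 b.2
    · obtain ⟨h1, h2, h3⟩ := hA'
      refine ⟨⟨0, hρ1 _ _⟩, ⟨(a.2 - b.2).val - 1, by omega⟩, hab, ?_, ?_⟩
      · rintro ⟨_, h5, h6, _⟩
        exact hneg _ _ h2 (h3.trans (hρ _ _)) h5 (h6.trans (hρ _ _))
      · rintro ⟨_, _, _, h4⟩
        simp only at h4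
        omega
    · refine ⟨⟨0, hρ1 _ _⟩, ⟨0, hρ1 _ _⟩, hab, ?_, ?_⟩
      · rintro ⟨h1, h2, h3, _⟩
        exact hA ⟨h1, h2, h3⟩
      · rintro ⟨h1, h2, h3, _⟩
        exact hA' ⟨h1, h2, h3⟩

/-- The graph is not `(s+1)`-colourable. -/
theorem noCol [NeZero g] [NeZero s] [Fact (1 < s)] {B : ℕ} (hρ1 : ∀ q j, 1 ≤ ρ q j)
    (hρ : ∀ q j, ρ q j ≤ B) (hB : (s + 1) * (2 * B) < g) (hodd : g % 2 = 1) :
    NoCol (s + 1) (Gr ρ) := by
  classical
  intro c
  by_contra hcon
  push Not at hcon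
  have hs2 : 1 < s := Fact.out
  have hB2 : 2 * B < g := lt_of_le_of_lt (Nat.le_mul_of_pos_left _ (by omega)) hB
  -- groups of part `q` which contain the colour `a`
  let S : ZMod s → Fin (s + 1) → Finset (ZMod g) := fun q a =>
    univ.filter (fun j => ∃ t : Fin (ρ q j), c (Sum.inl ⟨(q, j), t⟩) = a)
  have hS : ∀ q a j, j ∈ S q a ↔ ∃ t : Fin (ρ q j), c (Sum.inl ⟨(q, j), t⟩) = a := by
    intro q a j
    simp [S]
  have hpure : ∀ q, ∃ a, 2 * B < (S q a).card := by
    intro q
    by_contra hno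
    push Not at hno
    have h1 : (univ : Finset (ZMod g)) ⊆ (univ : Finset (Fin (s + 1))).biUnion (S q) := by
      intro j _
      rw [mem_biUnion]
      exact ⟨c (Sum.inl ⟨(q, j), ⟨0, hρ1 _ _⟩⟩), mem_univ _, (hS _ _ _).mpr ⟨_, rfl⟩⟩
    have h2 := (card_le_card h1).trans
      (card_biUnion_le_card_mul _ _ (2 * B) (fun a _ => hno a))
    rw [card_univ, ZMod.card, card_univ, Fintype.card_fin] at h2
    omega
  have hexcl : ∀ q q' a, q ≠ q' → 2 * B < (S q a).card → ∀ j', j' ∉ S q' a := by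
    intro q q' a hqq hbig j' hj'
    obtain ⟨t', ht'⟩ := (hS _ _ _).mp hj'
    have hsub : S q a ⊆ ((Finset.Icc 1 B).image (fun i : ℕ => j' - (i : ZMod g))) ∪
        ((Finset.Icc 1 B).image (fun i : ℕ => j' + (i : ZMod g))) := by
      intro j hj
      obtain ⟨t, ht⟩ := (hS _ _ _).mp hj
      have hna : ¬ (Gr ρ).Adj (Sum.inl ⟨(q, j), t⟩) (Sum.inl ⟨(q', j'), t'⟩) := by
        intro hadj
        exact hcon _ _ hadj (by rw [ht, ht'])
      have hna' : ¬ (q ≠ q' ∧ ¬ Bad ρ (q, j) t (q', j') ∧ ¬ Bad ρ (q', j') t' (q, j)) := hna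
      have hor : Bad ρ (q, j) t (q', j') ∨ Bad ρ (q', j') t' (q, j) := by
        by_contra hh
        push Not at hh
        exact hna' ⟨hqq, hh.1, hh.2⟩
      rw [mem_union, mem_image, mem_image]
      rcases hor with h | h
      · left
        refine ⟨(j' - j).val, ?_, ?_⟩
        · rw [Finset.mem_Icc]
          exact ⟨h.2.1, h.2.2.1.trans (hρ _ _)⟩
        · rw [ZMod.natCast_zmod_val]
          ring
      · right
        refine ⟨(j - j').val, ?_, ?_⟩
        · rw [Finset.mem_Icc]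
          exact ⟨h.2.1, h.2.2.1.trans (hρ _ _)⟩
        · rw [ZMod.natCast_zmod_val]
          ring
    have hcard := (card_le_card hsub).trans (card_union_le _ _)
    have h1 := card_image_le (s := Finset.Icc 1 B) (f := fun i : ℕ => j' - (i : ZMod g))
    have h2 := card_image_le (s := Finset.Icc 1 B) (f := fun i : ℕ => j' + (i : ZMod g))
    rw [Nat.card_Icc] at h1 h2
    omega
  choose f hf using hpure
  have hfinj : Function.Injective f := by
    intro q q' hqq
    by_contra hne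
    have h1 := hexcl q q' (f q) hne (hf q)
    have h2 : (S q' (f q')).Nonempty := by
      rw [← card_pos]
      have := hf q'
      omega
    obtain ⟨j, hj⟩ := h2
    rw [← hqq] at hj
    exact h1 j hj
  -- the extra colour
  have hstar : ∃ star : Fin (s + 1), ∀ a, a = star ∨ ∃ q, f q = a := by
    have hc : ((univ : Finset (ZMod s)).image f)ᶜ.card = 1 := by
      rw [card_compl, card_image_of_injective _ hfinj, card_univ, ZMod.card, Fintype.card_fin]
      omega
    obtain ⟨star, hst⟩ := card_eq_one.mp hc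
    refine ⟨star, fun a => ?_⟩
    by_cases ha : a ∈ ((univ : Finset (ZMod s)).image f)ᶜ
    · left
      rw [hst] at ha
      simpa using ha
    · right
      rw [mem_compl, not_not, mem_image] at ha
      obtain ⟨q, _, hq⟩ := ha
      exact ⟨q, hq⟩
  obtain ⟨star, hstar⟩ := hstar
  have hpart : ∀ q j (t : Fin (ρ q j)), c (Sum.inl ⟨(q, j), t⟩) = star ∨
      c (Sum.inl ⟨(q, j), t⟩) = f q := by
    intro q j t
    rcases hstar (c (Sum.inl ⟨(q, j), t⟩)) with h | ⟨q', hq'⟩
    · exact Or.inl h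
    · by_cases hqq : q' = q
      · right
        rw [← hq', hqq]
      · exfalso
        exact hexcl q' q (f q') hqq (hf q') j ((hS _ _ _).mpr ⟨t, hq'.symm⟩)
  -- freed parts
  have hone : ∃ p, ∀ q, q ≠ p → ∀ j, ∃ t : Fin (ρ q j), c (Sum.inl ⟨(q, j), t⟩) ≠ star := by
    by_cases hfree : ∃ p j, ∀ t : Fin (ρ p j), c (Sum.inl ⟨(p, j), t⟩) = star
    · obtain ⟨p, j, hpj⟩ := hfree
      refine ⟨p, fun q hq j' => ?_⟩
      by_contra hno
      push Not at hno
      obtain ⟨t, u, hadj⟩ := exists_adj ρ hρ1 hρ hB2 (a := (p, j)) (b := (q, j')) hq.symm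
      exact hcon _ _ hadj (by rw [hpj t, hno u])
    · push Not at hfree
      exact ⟨0, fun q _ j => hfree q j⟩
  obtain ⟨p, hp⟩ := hone
  have hw : ∀ j, c (Sum.inr (p, j)) = star ∨ c (Sum.inr (p, j)) = f p := by
    intro j
    rcases hstar (c (Sum.inr (p, j))) with h | ⟨q, hq⟩
    · exact Or.inl h
    · by_cases hqp : q = p
      · right
        rw [← hq, hqp]
      · exfalso
        obtain ⟨t, ht⟩ := hp q hqp j
        have h1 : c (Sum.inl ⟨(q, j), t⟩) = f q := (hpart q j t).resolve_left ht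
        have hadj : (Gr ρ).Adj (Sum.inl ⟨(q, j), t⟩) (Sum.inr (p, j)) := ⟨hqp, rfl⟩
        exact hcon _ _ hadj (by rw [h1, hq])
  obtain ⟨i, hi⟩ := odd_cycle hodd (fun j => decide (c (Sum.inr (p, j)) = star))
  have hg1 : 1 < g := by
    by_contra h
    have hB0 : B ≠ 0 := by
      have := hρ 0 0
      have := hρ1 0 0
      omega
    have : 1 ≤ B := by omega
    nlinarith
  have hi1 : i ≠ i + 1 := by
    intro h
    have : Fact (1 < g) := ⟨hg1⟩
    have h0 : (1 : ZMod g) = 0 := by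
      have h' : i + 1 - i = 0 := by rw [← h]; ring
      rw [add_sub_cancel_left] at h'
      exact h'
    exact one_ne_zero h0
  have hadj : (Gr ρ).Adj (Sum.inr (p, i)) (Sum.inr (p, i + 1)) := ⟨rfl, hi1, Or.inl rfl⟩
  apply hcon _ _ hadj
  have h3 := decide_eq_decide.mp hi
  rcases hw i with h | h
  · rw [h, h3.mpr h]
  · rcases hw (i + 1) with h' | h'
    · have h4 := h3.mp h'
      rw [h', h4]
    · rw [h, h']

/-- Alternate the colours `some p` and `none` starting after `b`. -/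
def altc [NeZero g] (p : ZMod s) (b i : ZMod g) : Option (ZMod s) :=
  if alt b i then some p else none

theorem altc_ne [NeZero g] (hg : 1 < g) (p : ZMod s) (b i : ZMod g) (h : i + 1 ≠ b) :
    altc p b (i + 1) ≠ altc p b i := by
  have h1 := alt_ne hg b i h
  unfold altc
  revert h1
  cases alt b (i + 1) <;> cases alt b i <;> simp

theorem altc_cases [NeZero g] (p : ZMod s) (b i : ZMod g) :
    altc p b i = some p ∨ altc p b i = none := by
  unfold altc
  cases alt b i <;> simp

theorem toFin [NeZero s] {V : Type} (f : V → Option (ZMod s)) :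
    ∃ f' : V → Fin (s + 1), ∀ x y, f x ≠ f y → f' x ≠ f' y := by
  have e : Option (ZMod s) ≃ Fin (s + 1) := Fintype.equivFinOfCardEq (by
    rw [Fintype.card_option, ZMod.card])
  exact ⟨fun x => e (f x), fun x y h h' => h (e.injective h')⟩

/-- Deleting a vertex of the sparse part. -/
theorem vcol_inr [NeZero g] [NeZero s] (hg : 1 < g) (w : ZMod s × ZMod g) :
    ∃ f : Y ρ ⊕ (ZMod s × ZMod g) → Option (ZMod s),
      ∀ x y, x ≠ Sum.inr w → y ≠ Sum.inr w → (Gr ρ).Adj x y → f x ≠ f y := by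
  classical
  obtain ⟨p₀, j₀⟩ := w
  let F : Y ρ ⊕ (ZMod s × ZMod g) → Option (ZMod s) := fun z => match z with
    | Sum.inl y => if y.1 = (p₀, 0) then none else some y.1.1
    | Sum.inr v => if v.1 = p₀ then altc v.1 j₀ v.2 else
        if v.2 = 0 then some p₀ else altc v.1 0 v.2
  have hFl : ∀ y : Y ρ, F (Sum.inl y) = if y.1 = (p₀, 0) then none else some y.1.1 :=
    fun _ => rfl
  have hFr : ∀ v : ZMod s × ZMod g, F (Sum.inr v) = if v.1 = p₀ then altc v.1 j₀ v.2 else
        if v.2 = 0 then some p₀ else altc v.1 0 v.2 := fun _ => rfl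
  -- the dense part against the sparse part
  have hlr : ∀ (y : Y ρ) (v : ZMod s × ZMod g), y.1.1 ≠ v.1 → y.1.2 = v.2 →
      F (Sum.inl y) ≠ F (Sum.inr v) := by
    rintro ⟨⟨a, i⟩, t⟩ ⟨p, i'⟩ h1 h2
    simp only at h1 h2
    subst h2
    rw [hFl, hFr]
    simp only [Prod.mk.injEq]
    by_cases hp : p = p₀
    · rw [if_pos hp, if_neg (by rintro ⟨h3, _⟩; exact h1 (h3.trans hp.symm))]
      rcases altc_cases p j₀ i with h | h <;> rw [h]
      · intro h3
        exact h1 (Option.some.inj h3)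
      · exact Option.some_ne_none _
    · rw [if_neg hp]
      by_cases hi : i = 0
      · rw [if_pos hi]
        by_cases ha : a = p₀
        · rw [if_pos ⟨ha, hi⟩]
          exact (Option.some_ne_none _).symm
        · rw [if_neg (fun h => ha h.1)]
          intro h3
          exact ha (Option.some.inj h3)
      · rw [if_neg hi, if_neg (fun h => hi h.2)]
        rcases altc_cases p 0 i with h | h <;> rw [h]
        · intro h3
          exact h1 (Option.some.inj h3)
        · exact Option.some_ne_none _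
  -- consecutive vertices of a cycle
  have hrr : ∀ (p : ZMod s) (i : ZMod g), (Sum.inr (p, i) : Y ρ ⊕ (ZMod s × ZMod g)) ≠
      Sum.inr (p₀, j₀) → (Sum.inr (p, i + 1) : Y ρ ⊕ (ZMod s × ZMod g)) ≠ Sum.inr (p₀, j₀) →
      F (Sum.inr (p, i)) ≠ F (Sum.inr (p, i + 1)) := by
    intro p i h1 h2
    rw [hFr, hFr]
    simp only
    by_cases hp : p = p₀
    · rw [if_pos hp, if_pos hp]
      apply (altc_ne hg _ _ _ _).symm
      intro h3
      exact h2 (by rw [h3, hp])
    · rw [if_neg hp, if_neg hp]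
      by_cases hi : i = 0
      · rw [if_pos hi]
        have hi1 : ¬ i + 1 = 0 := by
          rw [hi, zero_add]
          have : Fact (1 < g) := ⟨hg⟩
          exact one_ne_zero
        rw [if_neg hi1]
        rcases altc_cases p 0 (i + 1) with h | h <;> rw [h]
        · intro h3
          exact hp (Option.some.inj h3).symm
        · exact Option.some_ne_none _
      · rw [if_neg hi]
        by_cases hi1 : i + 1 = 0
        · rw [if_pos hi1]
          rcases altc_cases p 0 i with h | h <;> rw [h]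
          · intro h3
            exact hp (Option.some.inj h3)
          · exact (Option.some_ne_none _).symm
        · rw [if_neg hi1]
          exact (altc_ne hg _ _ _ hi1).symm
  refine ⟨F, ?_⟩
  intro x y hx hy hadj
  cases x with
  | inl x =>
    cases y with
    | inl y =>
      have hadj' : x.1.1 ≠ y.1.1 := hadj.1
      rw [hFl, hFl]
      by_cases h1 : x.1 = (p₀, 0)
      · rw [if_pos h1]
        have h2 : ¬ y.1 = (p₀, 0) := by
          intro h2
          exact hadj' (by rw [h1, h2])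
        rw [if_neg h2]
        exact (Option.some_ne_none _).symm
      · rw [if_neg h1]
        by_cases h2 : y.1 = (p₀, 0)
        · rw [if_pos h2]
          exact Option.some_ne_none _
        · rw [if_neg h2]
          intro h3
          exact hadj' (Option.some.inj h3)
    | inr v => exact hlr x v hadj.1 hadj.2
  | inr v =>
    cases y with
    | inl y => exact (hlr y v hadj.1 hadj.2).symm
    | inr v' =>
      obtain ⟨h1, h2, h3⟩ := hadj
      obtain ⟨p, i⟩ := v
      obtain ⟨p', i'⟩ := v'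
      simp only at h1 h3
      subst h1
      rcases h3 with h3 | h3
      · subst h3
        exact hrr p i hx hy
      · subst h3
        exact (hrr p i' hy hx).symm

/-- Deleting a vertex of the dense part. -/
theorem vcol_inl [NeZero g] [NeZero s] [Fact (1 < s)] {B : ℕ} (hρ : ∀ q j, ρ q j ≤ B)
    (hB : B + 1 < g) (y₀ : Y ρ) :
    ∃ f : Y ρ ⊕ (ZMod s × ZMod g) → Option (ZMod s),
      ∀ x y, x ≠ Sum.inl y₀ → y ≠ Sum.inl y₀ → (Gr ρ).Adj x y → f x ≠ f y := by
  classical
  have hg : 1 < g := by omega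
  have : Fact (1 < g) := ⟨hg⟩
  obtain ⟨⟨q, j⟩, t⟩ := y₀
  have htB : (t : ℕ) + 1 ≤ ρ q j := t.2
  have htg : (t : ℕ) + 1 < g := by have := hρ q j; omega
  set b : ZMod g := j + ((t + 1 : ℕ) : ZMod g) with hb
  have hbv : (b - j).val = t + 1 := by
    rw [hb, add_sub_cancel_left, ZMod.val_natCast, Nat.mod_eq_of_lt htg]
  have hbj : b ≠ j := by
    intro h
    rw [h, sub_self, ZMod.val_zero] at hbv
    omega
  have hq1 : q + 1 ≠ q := by
    intro h
    have h0 : (1 : ZMod s) = 0 := by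
      have h' : q + 1 - q = 0 := by rw [h, sub_self]
      rw [add_sub_cancel_left] at h'
      exact h'
    exact one_ne_zero h0
  let F : Y ρ ⊕ (ZMod s × ZMod g) → Option (ZMod s) := fun z => match z with
    | Sum.inl y => if y.1 = (q, j) ∨ y.1 = (q + 1, b) then none else some y.1.1
    | Sum.inr v => if v.1 ≠ q + 1 ∧ v.2 = b then some (q + 1) else
        if v.1 ≠ q ∧ v.2 = j then some q else
        altc v.1 (if v.1 = q + 1 then j else b) v.2
  have hFl : ∀ y : Y ρ, F (Sum.inl y) =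
      if y.1 = (q, j) ∨ y.1 = (q + 1, b) then none else some y.1.1 := fun _ => rfl
  have hFr : ∀ v : ZMod s × ZMod g, F (Sum.inr v) =
      if v.1 ≠ q + 1 ∧ v.2 = b then some (q + 1) else
        if v.1 ≠ q ∧ v.2 = j then some q else
        altc v.1 (if v.1 = q + 1 then j else b) v.2 := fun _ => rfl
  have hlr : ∀ (y : Y ρ) (v : ZMod s × ZMod g), y.1.1 ≠ v.1 → y.1.2 = v.2 →
      F (Sum.inl y) ≠ F (Sum.inr v) := by
    rintro ⟨⟨a, i⟩, u⟩ ⟨p, i'⟩ h1 h2
    simp only at h1 h2
    subst h2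
    rw [hFl, hFr]
    simp only [Prod.mk.injEq]
    by_cases hc1 : p ≠ q + 1 ∧ i = b
    · rw [if_pos hc1]
      by_cases hc2 : a = q ∧ i = j ∨ a = q + 1 ∧ i = b
      · rw [if_pos hc2]
        exact (Option.some_ne_none _).symm
      · rw [if_neg hc2]
        intro h3
        exact hc2 (Or.inr ⟨Option.some.inj h3, hc1.2⟩)
    · rw [if_neg hc1]
      by_cases hc3 : p ≠ q ∧ i = j
      · rw [if_pos hc3]
        by_cases hc2 : a = q ∧ i = j ∨ a = q + 1 ∧ i = b
        · rw [if_pos hc2]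
          exact (Option.some_ne_none _).symm
        · rw [if_neg hc2]
          intro h3
          exact hc2 (Or.inl ⟨Option.some.inj h3, hc3.2⟩)
      · rw [if_neg hc3]
        have hc2 : ¬ (a = q ∧ i = j ∨ a = q + 1 ∧ i = b) := by
          rintro (⟨h3, h4⟩ | ⟨h3, h4⟩)
          · exact hc3 ⟨fun h => h1 (h3.trans h.symm), h4⟩
          · exact hc1 ⟨fun h => h1 (h3.trans h.symm), h4⟩
        rw [if_neg hc2]
        rcases altc_cases p (if p = q + 1 then j else b) i with h | h <;> rw [h]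
        · intro h3
          exact h1 (Option.some.inj h3)
        · exact Option.some_ne_none _
  have hrr : ∀ (p : ZMod s) (i : ZMod g), F (Sum.inr (p, i)) ≠ F (Sum.inr (p, i + 1)) := by
    intro p i
    rw [hFr, hFr]
    simp only
    have hii : i + 1 ≠ i := by
      intro h
      have h0 : (1 : ZMod g) = 0 := by
        have h' : i + 1 - i = 0 := by rw [h, sub_self]
        rw [add_sub_cancel_left] at h'
        exact h'
      exact one_ne_zero h0
    by_cases hp1 : p = q + 1
    · -- the break index is `j`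
      have hpq : p ≠ q := by rw [hp1]; exact hq1
      have hn : ∀ k : ZMod g, ¬ (p ≠ q + 1 ∧ k = b) := fun k h => h.1 hp1
      rw [if_neg (hn i), if_neg (hn (i + 1)), if_pos hp1]
      by_cases h1 : i = j
      · rw [if_pos ⟨hpq, h1⟩]
        have h2 : ¬ (p ≠ q ∧ i + 1 = j) := by
          rintro ⟨_, h2⟩
          exact hii (h2.trans h1.symm)
        rw [if_neg h2]
        rcases altc_cases p j (i + 1) with h | h <;> rw [h]
        · intro h3
          exact hpq (Option.some.inj h3).symm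
        · exact Option.some_ne_none _
      · rw [if_neg (fun h => h1 h.2)]
        by_cases h2 : i + 1 = j
        · rw [if_pos ⟨hpq, h2⟩]
          rcases altc_cases p j i with h | h <;> rw [h]
          · intro h3
            exact hpq (Option.some.inj h3)
          · exact (Option.some_ne_none _).symm
        · rw [if_neg (fun h => h2 h.2)]
          exact (altc_ne hg _ _ _ h2).symm
    · rw [if_neg hp1]
      by_cases h1 : i = b
      · rw [if_pos ⟨hp1, h1⟩]
        have h2 : ¬ (p ≠ q + 1 ∧ i + 1 = b) := by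
          rintro ⟨_, h2⟩
          exact hii (h2.trans h1.symm)
        rw [if_neg h2]
        by_cases h3 : p ≠ q ∧ i + 1 = j
        · rw [if_pos h3]
          intro h4
          exact hq1 (Option.some.inj h4)
        · rw [if_neg h3]
          rcases altc_cases p b (i + 1) with h | h <;> rw [h]
          · intro h3
            exact hp1 (Option.some.inj h3).symm
          · exact Option.some_ne_none _
      · rw [if_neg (fun h => h1 h.2)]
        by_cases h2 : i + 1 = b
        · rw [if_pos (⟨hp1, h2⟩ : p ≠ q + 1 ∧ i + 1 = b)]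
          by_cases h3 : p ≠ q ∧ i = j
          · rw [if_pos h3]
            intro h4
            exact hq1 (Option.some.inj h4).symm
          · rw [if_neg h3]
            rcases altc_cases p b i with h | h <;> rw [h]
            · intro h3
              exact hp1 (Option.some.inj h3)
            · exact (Option.some_ne_none _).symm
        · rw [if_neg (fun h : p ≠ q + 1 ∧ i + 1 = b => h2 h.2)]
          by_cases h3 : p ≠ q ∧ i = j
          · rw [if_pos h3]
            have h4 : ¬ (p ≠ q ∧ i + 1 = j) := by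
              rintro ⟨_, h4⟩
              exact hii (h4.trans h3.2.symm)
            rw [if_neg h4]
            rcases altc_cases p b (i + 1) with h | h <;> rw [h]
            · intro h5
              exact h3.1 (Option.some.inj h5).symm
            · exact Option.some_ne_none _
          · rw [if_neg h3]
            by_cases h4 : p ≠ q ∧ i + 1 = j
            · rw [if_pos h4]
              rcases altc_cases p b i with h | h <;> rw [h]
              · intro h5
                exact h4.1 (Option.some.inj h5)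
              · exact (Option.some_ne_none _).symm
            · rw [if_neg h4]
              exact (altc_ne hg _ _ _ h2).symm
  -- the two freed groups are not adjacent once the vertex is removed
  have hfree : ∀ (x y : Y ρ), x ≠ ⟨(q, j), t⟩ → x.1 = (q, j) → y.1 = (q + 1, b) →
      ¬ (Gr ρ).Adj (Sum.inl x) (Sum.inl y) := by
    rintro ⟨x1, x2⟩ ⟨y1, y2⟩ hne hx hy hadj
    simp only at hx hy
    subst hx
    subst hy
    apply hadj.2.1
    refine ⟨rfl, ?_, ?_, ?_⟩
    · simp only
      rw [hbv]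
      omega
    · simp only
      rw [hbv]
      exact htB
    · simp only
      rw [hbv]
      intro h
      apply hne
      have : t = x2 := by
        apply Fin.ext
        omega
      rw [this]
  refine ⟨F, ?_⟩
  intro x y hx hy hadj
  cases x with
  | inl x =>
    have hx' : x ≠ ⟨(q, j), t⟩ := fun h => hx (by rw [h])
    cases y with
    | inl y =>
      have hy' : y ≠ ⟨(q, j), t⟩ := fun h => hy (by rw [h])
      have hadj' : x.1.1 ≠ y.1.1 := hadj.1
      rw [hFl, hFl]
      by_cases h1 : x.1 = (q, j) ∨ x.1 = (q + 1, b)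
      · rw [if_pos h1]
        have h2 : ¬ (y.1 = (q, j) ∨ y.1 = (q + 1, b)) := by
          rintro (h2 | h2)
          · rcases h1 with h1 | h1
            · exact hadj' (by rw [h1, h2])
            · exact hfree y x hy' h2 h1 hadj.symm
          · rcases h1 with h1 | h1
            · exact hfree x y hx' h1 h2 hadj
            · exact hadj' (by rw [h1, h2])
        rw [if_neg h2]
        exact (Option.some_ne_none _).symm
      · rw [if_neg h1]
        by_cases h2 : y.1 = (q, j) ∨ y.1 = (q + 1, b)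
        · rw [if_pos h2]
          exact Option.some_ne_none _
        · rw [if_neg h2]
          intro h3
          exact hadj' (Option.some.inj h3)
    | inr v => exact hlr x v hadj.1 hadj.2
  | inr v =>
    cases y with
    | inl y => exact (hlr y v hadj.1 hadj.2).symm
    | inr v' =>
      obtain ⟨h1, h2, h3⟩ := hadj
      obtain ⟨p, i⟩ := v
      obtain ⟨p', i'⟩ := v'
      simp only at h1 h3
      subst h1
      rcases h3 with h3 | h3
      · subst h3
        exact hrr p i
      · subst h3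
        exact (hrr p i').symm

theorem vCol [NeZero g] [NeZero s] [Fact (1 < s)] {B : ℕ} (hρ : ∀ q j, ρ q j ≤ B)
    (hB : B + 1 < g) : VCol (s + 1) (Gr ρ) := by
  intro v
  have h : ∃ f : Y ρ ⊕ (ZMod s × ZMod g) → Option (ZMod s),
      ∀ x y, x ≠ v → y ≠ v → (Gr ρ).Adj x y → f x ≠ f y := by
    cases v with
    | inl y => exact vcol_inl ρ hρ hB y
    | inr w => exact vcol_inr ρ (by omega) w
  obtain ⟨f, hf⟩ := h
  obtain ⟨f', hf'⟩ := toFin f
  exact ⟨f', fun x y hx hy hadj => hf' _ _ (hf x y hx hy hadj)⟩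

/-- Number of edges. -/
theorem edges_ge [NeZero g] [NeZero s] {B r : ℕ} (hr : ∀ q j, r ≤ ρ q j)
    (hρ : ∀ q j, ρ q j ≤ B) [DecidableRel (Gr ρ).Adj] :
    (s * s - s) * (g * r) ^ 2 ≤
      2 * (Gr ρ).edgeFinset.card + 2 * (Fintype.card (Y ρ) * B ^ 2) := by
  classical
  have e : 2 * (Gr ρ).edgeFinset.card =
      (univ.filter (fun z : (Y ρ ⊕ (ZMod s × ZMod g)) ×
      (Y ρ ⊕ (ZMod s × ZMod g)) => (Gr ρ).Adj z.1 z.2)).card := by
    rw [SimpleGraph.two_mul_card_edgeFinset]
  rw [e]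
  -- pairs in different parts
  let P : Finset (Y ρ × Y ρ) := univ.filter (fun z => z.1.1.1 ≠ z.2.1.1)
  let Q : Finset (Y ρ × Y ρ) := univ.filter (fun z => Bad ρ z.1.1 z.1.2 z.2.1)
  let Q' : Finset (Y ρ × Y ρ) := univ.filter (fun z => Bad ρ z.2.1 z.2.2 z.1.1)
  have hP : (s * s - s) * (g * r) ^ 2 ≤ P.card := by
    let T : Finset ((ZMod s × ZMod s) × ((ZMod g × Fin r) × (ZMod g × Fin r))) :=
      (univ : Finset (ZMod s)).offDiag ×ˢ univ
    have hT : T.card = (s * s - s) * (g * r) ^ 2 := by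
      rw [card_product, offDiag_card, card_univ, ZMod.card, card_univ, Fintype.card_prod,
        Fintype.card_prod, ZMod.card, Fintype.card_fin]
      ring
    rw [← hT]
    apply card_le_card_of_injOn (fun z => ((⟨(z.1.1, z.2.1.1), Fin.castLE (hr _ _) z.2.1.2⟩ : Y ρ),
      (⟨(z.1.2, z.2.2.1), Fin.castLE (hr _ _) z.2.2.2⟩ : Y ρ)))
    · intro z hz
      have h1 : z.1 ∈ (univ : Finset (ZMod s)).offDiag := (mem_product.mp hz).1
      rw [mem_offDiag] at h1
      simp only [P, coe_filter, Set.mem_ofPred_eq, mem_univ, true_and]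
      exact h1.2.2
    · rintro ⟨⟨a, a'⟩, ⟨⟨j, t⟩, ⟨j', t'⟩⟩⟩ _ ⟨⟨b, b'⟩, ⟨⟨k, u⟩, ⟨k', u'⟩⟩⟩ _ h
      simp only [Prod.mk.injEq] at h
      obtain ⟨h1, h2⟩ := h
      have e1 := (Sigma.mk.inj_iff.mp h1).1
      have e2 := (Sigma.mk.inj_iff.mp h2).1
      simp only [Prod.mk.injEq] at e1 e2
      obtain ⟨ea, ej⟩ := e1
      obtain ⟨ea', ej'⟩ := e2
      subst ea ej ea' ej'
      have e3 := eq_of_heq (Sigma.mk.inj_iff.mp h1).2
      have e4 := eq_of_heq (Sigma.mk.inj_iff.mp h2).2
      have e5 : t = u := Fin.ext (by simpa using congrArg Fin.val e3)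
      have e6 : t' = u' := Fin.ext (by simpa using congrArg Fin.val e4)
      rw [e5, e6]
  have hone : ∀ x : Y ρ, (univ.filter (fun y : Y ρ => Bad ρ x.1 x.2 y.1)).card ≤ B ^ 2 := by
    intro x
    have : B ^ 2 = ((Finset.Icc 1 B) ×ˢ (range B)).card := by
      rw [card_product, Nat.card_Icc, card_range]
      have : B + 1 - 1 = B := by omega
      rw [this]
      ring
    rw [this]
    apply card_le_card_of_injOn (fun y => ((y.1.2 - x.1.2).val, (y.2 : ℕ)))
    · intro y hy
      simp only [coe_filter, mem_univ, true_and, Set.mem_ofPred_eq] at hy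
      simp only [coe_product, Set.mem_prod, mem_coe, Finset.mem_Icc, mem_range]
      exact ⟨⟨hy.2.1, hy.2.2.1.trans (hρ _ _)⟩, lt_of_lt_of_le y.2.2 (hρ _ _)⟩
    · rintro ⟨⟨a, j⟩, t⟩ hy ⟨⟨a', j'⟩, t'⟩ hy' h
      simp only [coe_filter, mem_univ, true_and, Set.mem_ofPred_eq] at hy hy'
      have ha : a = a' := hy.1.trans hy'.1.symm
      simp only [Prod.mk.injEq] at h
      obtain ⟨h1, h2⟩ := h
      have h3 := ZMod.val_injective g h1
      have hj : j = j' := sub_left_inj.mp h3
      subst ha hj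
      have : t = t' := Fin.ext h2
      rw [this]
  have hQ : Q.card ≤ Fintype.card (Y ρ) * B ^ 2 := by
    have h1 : Q = Finset.map
        ⟨fun z : (Σ _x : Y ρ, Y ρ) => (z.1, z.2), by
          rintro ⟨a, b⟩ ⟨c, d⟩ h
          simp only [Prod.mk.injEq] at h
          obtain ⟨h1, h2⟩ := h
          subst h1 h2
          rfl⟩ ((univ : Finset (Y ρ)).sigma
        (fun x => univ.filter (fun y : Y ρ => Bad ρ x.1 x.2 y.1))) := by
      ext ⟨x, y⟩
      simp only [Q, mem_filter, mem_univ, true_and, mem_map, mem_sigma]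
      constructor
      · intro h
        exact ⟨⟨x, y⟩, h, rfl⟩
      · rintro ⟨⟨a, b⟩, h, he⟩
        cases he
        exact h
    rw [h1, card_map, card_sigma]
    calc ∑ x : Y ρ, (univ.filter (fun y : Y ρ => Bad ρ x.1 x.2 y.1)).card
        ≤ ∑ _x : Y ρ, B ^ 2 := sum_le_sum (fun x _ => hone x)
      _ = Fintype.card (Y ρ) * B ^ 2 := by rw [sum_const, card_univ, smul_eq_mul]
  have hQ' : Q'.card ≤ Fintype.card (Y ρ) * B ^ 2 := by
    have : Q'.card = Q.card := by
      apply card_bij (fun z _ => (z.2, z.1))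
      · intro z hz
        simpa [Q, Q'] using hz
      · rintro ⟨a, b⟩ _ ⟨c, d⟩ _ h
        simp only [Prod.mk.injEq] at h
        rw [h.1, h.2]
      · rintro ⟨a, b⟩ h
        exact ⟨(b, a), by simpa [Q, Q'] using h, rfl⟩
    rw [this]
    exact hQ
  have hsub : P.card ≤ (univ.filter (fun z : (Y ρ ⊕ (ZMod s × ZMod g)) ×
      (Y ρ ⊕ (ZMod s × ZMod g)) => (Gr ρ).Adj z.1 z.2)).card + (Q.card + Q'.card) := by
    have h1 : P ⊆ (P \ (Q ∪ Q')) ∪ (Q ∪ Q') := by
      rw [sdiff_union_self_eq_union]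
      exact subset_union_left
    have h2 : (P \ (Q ∪ Q')).card ≤ (univ.filter (fun z : (Y ρ ⊕ (ZMod s × ZMod g)) ×
      (Y ρ ⊕ (ZMod s × ZMod g)) => (Gr ρ).Adj z.1 z.2)).card := by
      apply card_le_card_of_injOn (fun z => (Sum.inl z.1, Sum.inl z.2))
      · intro z hz
        simp only [P, Q, Q', coe_sdiff, coe_filter, mem_univ, true_and, coe_union,
          Set.mem_sdiff, Set.mem_ofPred_eq, Set.mem_union, not_or] at hz
        simp only [coe_filter, mem_univ, true_and, Set.mem_ofPred_eq]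
        exact ⟨hz.1, hz.2.1, hz.2.2⟩
      · rintro ⟨a, b⟩ _ ⟨c, d⟩ _ h
        simp only [Prod.mk.injEq, Sum.inl.injEq] at h
        rw [h.1, h.2]
    calc P.card ≤ ((P \ (Q ∪ Q')) ∪ (Q ∪ Q')).card := card_le_card h1
      _ ≤ (P \ (Q ∪ Q')).card + (Q ∪ Q').card := card_union_le _ _
      _ ≤ _ := Nat.add_le_add h2 (card_union_le _ _)
  omega

end Constr

/-! ### Transfer to `Fin n` and choice of the parameters -/

theorem NoCol.iso {V W : Type} {q : ℕ} {G : SimpleGraph V} {H : SimpleGraph W} (e : G ≃g H)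
    (h : NoCol q G) : NoCol q H := by
  intro f
  obtain ⟨x, y, h1, h2⟩ := h (fun v => f (e v))
  exact ⟨e x, e y, e.map_rel_iff.mpr h1, h2⟩

theorem VCol.iso {V W : Type} {q : ℕ} {G : SimpleGraph V} {H : SimpleGraph W} (e : G ≃g H)
    (h : VCol q G) : VCol q H := by
  intro v
  obtain ⟨f, hf⟩ := h (e.symm v)
  refine ⟨fun w => f (e.symm w), fun x y hx hy hxy => hf _ _ ?_ ?_ ?_⟩
  · intro h'
    exact hx (e.symm.injective h')
  · intro h'
    exact hy (e.symm.injective h')
  · exact e.symm.map_rel_iff.mpr hxy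

theorem ncard_iso {V W : Type} [Fintype V] [Fintype W] {G : SimpleGraph V} {H : SimpleGraph W}
    (e : G ≃g H) : G.edgeSet.ncard = H.edgeSet.ncard := by
  classical
  rw [← SimpleGraph.coe_edgeFinset G, ← SimpleGraph.coe_edgeFinset H, Set.ncard_coe_finset,
    Set.ncard_coe_finset, e.card_edgeFinset_eq]

theorem lower1 (s r : ℕ) (hs : 2 ≤ s) (hr : 1 ≤ r) :
    ∃ B n₀ : ℕ, ∀ n : ℕ, n₀ ≤ n → ∃ g : ℕ, n < s * (r + 1) * (g + 2) ∧
      ∃ G : SimpleGraph (Fin n), NoCol (s + 1) G ∧ VCol (s + 1) G ∧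
        (s * s - s) * (g * r) ^ 2 ≤ 2 * G.edgeSet.ncard + 2 * (n * B ^ 2) := by
  classical
  set M := s * (r + 1) with hM
  have hM0 : 0 < M := by positivity
  set B := r + 2 * M with hB
  refine ⟨B, M * ((s + 1) * (2 * B) + 3) + M, fun n hn => ?_⟩
  set h := (n - M) / (2 * M) with hh
  have h1 : n - M = 2 * M * h + (n - M) % (2 * M) := (Nat.div_add_mod _ _).symm
  have h2 : (n - M) % (2 * M) < 2 * M := Nat.mod_lt _ (by positivity)
  set δ := (n - M) % (2 * M) with hδ
  have hnM : M ≤ n := le_trans (Nat.le_add_left _ _) hn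
  set g := 2 * h + 1 with hg
  have hng : n = M * g + δ := by
    rw [hg]
    have : M * (2 * h + 1) = 2 * M * h + M := by ring
    omega
  have hgbig : (s + 1) * (2 * B) + 1 < g := by
    by_contra hcon
    push Not at hcon
    have h3 : M * g ≤ M * ((s + 1) * (2 * B) + 1) := Nat.mul_le_mul_left _ hcon
    have h4 : M * ((s + 1) * (2 * B) + 3) = M * ((s + 1) * (2 * B) + 1) + 2 * M := by ring
    omega
  have : NeZero s := ⟨by omega⟩
  have : NeZero g := ⟨by omega⟩
  have : Fact (1 < s) := ⟨by omega⟩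
  refine ⟨g, ?_, ?_⟩
  · have : M * (g + 2) = M * g + 2 * M := by ring
    omega
  · let ρ : ZMod s → ZMod g → ℕ := fun q j => r + if q = 0 ∧ j = 0 then δ else 0
    have hρr : ∀ q j, r ≤ ρ q j := fun q j => Nat.le_add_right _ _
    have hρ1 : ∀ q j, 1 ≤ ρ q j := fun q j => hr.trans (hρr q j)
    have hρB : ∀ q j, ρ q j ≤ B := by
      intro q j
      simp only [ρ]
      split_ifs <;> omega
    have hcardY : Fintype.card (Y ρ) = s * g * r + δ := by
      have e1 : Fintype.card (Y ρ) = ∑ a : ZMod s × ZMod g, ρ a.1 a.2 := by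
        rw [Fintype.card_sigma]
        apply sum_congr rfl
        intro a _
        rw [Fintype.card_fin]
      rw [e1]
      simp only [ρ]
      rw [sum_add_distrib, sum_const, card_univ, Fintype.card_prod, ZMod.card, ZMod.card,
        smul_eq_mul]
      congr 1
      rw [sum_eq_single (0, 0)]
      · simp
      · intro b _ hb
        rw [if_neg]
        rintro ⟨h3, h4⟩
        exact hb (Prod.ext h3 h4)
      · intro h3
        exact absurd (mem_univ _) h3
    have hcard : Fintype.card (Y ρ ⊕ (ZMod s × ZMod g)) = n := by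
      rw [Fintype.card_sum, hcardY, Fintype.card_prod, ZMod.card, ZMod.card, hng, hM]
      ring
    have hYn : Fintype.card (Y ρ) ≤ n := by
      rw [← hcard, Fintype.card_sum]
      exact Nat.le_add_right _ _
    have hodd : g % 2 = 1 := by omega
    have hN := noCol ρ hρ1 hρB (by omega) hodd
    have hBg : B + 1 < g := by
      have : B ≤ (s + 1) * (2 * B) := by nlinarith
      omega
    have hV := vCol ρ hρB hBg
    have hE := edges_ge ρ hρr hρB
    refine ⟨(Gr ρ).overFin hcard, hN.iso ((Gr ρ).overFinIso hcard),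
      hV.iso ((Gr ρ).overFinIso hcard), ?_⟩
    rw [← ncard_iso ((Gr ρ).overFinIso hcard), ← SimpleGraph.coe_edgeFinset (Gr ρ),
      Set.ncard_coe_finset]
    calc (s * s - s) * (g * r) ^ 2
        ≤ 2 * (Gr ρ).edgeFinset.card + 2 * (Fintype.card (Y ρ) * B ^ 2) := hE
      _ ≤ 2 * (Gr ρ).edgeFinset.card + 2 * (n * B ^ 2) := by
        have := Nat.mul_le_mul_right (B ^ 2) hYn
        omega

/-- The lower bound. -/
theorem lower (s : ℕ) (hs : 2 ≤ s) (ε : ℝ) (hε : 0 < ε) :
    ∃ n₀ : ℕ, ∀ n : ℕ, n₀ ≤ n →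
      ∃ G : SimpleGraph (Fin n), NoCol (s + 1) G ∧ VCol (s + 1) G ∧
        ((1 - 1 / (s : ℝ)) / 2 - ε) * (n : ℝ) ^ 2 ≤ (G.edgeSet.ncard : ℝ) := by
  obtain ⟨r, hr⟩ := exists_nat_gt (4 / ε)
  have hr0 : (0 : ℝ) < r := lt_trans (by positivity) hr
  have hr1 : 1 ≤ r := by exact_mod_cast hr0
  obtain ⟨B, n₁, h⟩ := lower1 s r hs hr1
  obtain ⟨m, hm⟩ := exists_nat_gt ((8 * s * r + 4 * B ^ 2 : ℝ) / ε)
  refine ⟨max n₁ (max m (4 * s * (r + 1))), fun n hn => ?_⟩
  obtain ⟨g, hg, G, hN, hV, hE⟩ := h n (le_trans (le_max_left _ _) hn)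
  refine ⟨G, hN, hV, ?_⟩
  have hnm : (m : ℝ) ≤ n := by
    exact_mod_cast (le_trans (le_max_left _ _) (le_trans (le_max_right _ _) hn))
  have hn4 : 4 * s * (r + 1) ≤ n := le_trans (le_max_right _ _) (le_trans (le_max_right _ _) hn)
  have hs0 : (2 : ℝ) ≤ s := by exact_mod_cast hs
  have hn0 : (0 : ℝ) < n := by
    have : 0 < 4 * s * (r + 1) := by positivity
    exact_mod_cast lt_of_lt_of_le this hn4
  have hE' : ((s : ℝ) * s - s) * ((g : ℝ) * r) ^ 2 ≤
      2 * (G.edgeSet.ncard : ℝ) + 2 * (n * (B : ℝ) ^ 2) := by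
    have h1 : s ≤ s * s := Nat.le_mul_self s
    have h2 := (Nat.cast_le (α := ℝ)).mpr hE
    push_cast [Nat.cast_sub h1] at h2
    exact h2
  have hg' : (n : ℝ) ≤ s * (r + 1) * (g + 2) := by
    exact_mod_cast hg.le
  -- `s g r ≥ n (1 - 1/(r+1)) - 2 s r`
  have hsgr : (n : ℝ) * (1 - 1 / (r + 1)) - 2 * s * r ≤ s * (g * r) := by
    have h3 : (0 : ℝ) < r + 1 := by positivity
    have h4 : (n : ℝ) * (1 - 1 / (r + 1)) = n * r / (r + 1) := by
      field_simp
      ring
    rw [h4, sub_le_iff_le_add, div_le_iff₀ h3]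
    nlinarith
  have hbig : (0 : ℝ) ≤ (n : ℝ) * (1 - 1 / (r + 1)) - 2 * s * r := by
    have h3 : (0 : ℝ) < r + 1 := by positivity
    have h4 : (n : ℝ) * (1 - 1 / (r + 1)) = n * r / (r + 1) := by
      field_simp
      ring
    rw [h4, sub_nonneg, le_div_iff₀ h3]
    have h5 : (4 : ℝ) * s * (r + 1) ≤ n := by exact_mod_cast hn4
    nlinarith [mul_le_mul_of_nonneg_right h5 hr0.le]
  have hsq : ((n : ℝ) * (1 - 1 / (r + 1)) - 2 * s * r) ^ 2 ≤ (s * (g * r)) ^ 2 :=
    pow_le_pow_left₀ hbig hsgr 2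
  have hx : (n : ℝ) ^ 2 * (1 - 2 / (r + 1)) - 4 * s * r * n ≤
      ((n : ℝ) * (1 - 1 / (r + 1)) - 2 * s * r) ^ 2 := by
    have h3 : (0 : ℝ) < r + 1 := by positivity
    have h6 : (0 : ℝ) ≤ 1 / (r + 1) := by positivity
    have h7 : (2 : ℝ) / (r + 1) = 2 * (1 / (r + 1)) := by ring
    rw [h7]
    set z : ℝ := 1 / (r + 1)
    have h8 : (0 : ℝ) ≤ s * r * n * z := by positivity
    nlinarith [sq_nonneg ((n : ℝ) * z), sq_nonneg ((s : ℝ) * r)]
  have hss : (0 : ℝ) ≤ 1 - 1 / (s : ℝ) := by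
    rw [sub_nonneg, div_le_one (by linarith)]
    linarith
  have hss1 : 1 - 1 / (s : ℝ) ≤ 1 := by
    have : (0 : ℝ) ≤ 1 / (s : ℝ) := by positivity
    linarith
  have hkey : (1 - 1 / (s : ℝ)) * (s * (g * r)) ^ 2 = ((s : ℝ) * s - s) * ((g : ℝ) * r) ^ 2 := by
    have : (s : ℝ) ≠ 0 := by linarith
    field_simp
  have h9 : (1 - 1 / (s : ℝ)) * ((n : ℝ) ^ 2 * (1 - 2 / (r + 1)) - 4 * s * r * n) ≤
      2 * (G.edgeSet.ncard : ℝ) + 2 * (n * (B : ℝ) ^ 2) := by
    calc _ ≤ (1 - 1 / (s : ℝ)) * (s * (g * r)) ^ 2 :=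
          mul_le_mul_of_nonneg_left (hx.trans hsq) hss
      _ = _ := hkey
      _ ≤ _ := hE'
  have h10 : 2 / ((r : ℝ) + 1) ≤ ε / 2 := by
    rw [div_le_iff₀ (by positivity)]
    rw [div_lt_iff₀ hε] at hr
    linarith
  have h11 : (8 * s * r + 4 * B ^ 2 : ℝ) * n ≤ ε * (n : ℝ) ^ 2 := by
    have h12 : (8 * s * r + 4 * B ^ 2 : ℝ) ≤ ε * n := by
      rw [div_lt_iff₀ hε] at hm
      have hm2 : (m : ℝ) * ε ≤ n * ε := mul_le_mul_of_nonneg_right hnm hε.le
      linarith
    calc (8 * s * r + 4 * B ^ 2 : ℝ) * n ≤ (ε * n) * n :=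
          mul_le_mul_of_nonneg_right h12 hn0.le
      _ = ε * (n : ℝ) ^ 2 := by ring
  have h13 : (1 - 1 / (s : ℝ)) * ((n : ℝ) ^ 2 * (2 / (r + 1))) ≤ (n : ℝ) ^ 2 * (ε / 2) := by
    calc _ ≤ 1 * ((n : ℝ) ^ 2 * (2 / (r + 1))) := by
          apply mul_le_mul_of_nonneg_right hss1
          positivity
      _ ≤ _ := by
          rw [one_mul]
          exact mul_le_mul_of_nonneg_left h10 (by positivity)
  have h14 : (1 - 1 / (s : ℝ)) * (4 * s * r * n) ≤ 4 * s * r * n := by
    have : (0 : ℝ) ≤ 4 * s * r * n := by positivity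
    exact mul_le_of_le_one_left this hss1
  have h15 : (1 - 1 / (s : ℝ)) * ((n : ℝ) ^ 2 * (1 - 2 / (r + 1)) - 4 * s * r * n) =
      (1 - 1 / (s : ℝ)) * (n : ℝ) ^ 2 - (1 - 1 / (s : ℝ)) * ((n : ℝ) ^ 2 * (2 / (r + 1))) -
        (1 - 1 / (s : ℝ)) * (4 * s * r * n) := by ring
  rw [h15] at h9
  have h16 : ((1 - 1 / (s : ℝ)) / 2 - ε) * (n : ℝ) ^ 2 =
      ((1 - 1 / (s : ℝ)) * (n : ℝ) ^ 2 - 2 * (ε * (n : ℝ) ^ 2)) / 2 := by ring
  rw [h16]
  have h17 : (0 : ℝ) ≤ ε * (n : ℝ) ^ 2 := by positivity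
  linarith

end Pool.Agent.H166R2.VC
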