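import Mathlib
import Pool.Agent.H166R2.VC.Lower

set_option autoImplicit false

namespace Pool.Agent.H166R2.VC

open Finset

/-! ### Edge counts -/

theorem ncard_le_of_hom {V W : Type} [Fintype V] [Fintype W] {G : SimpleGraph V}
    {H : SimpleGraph W} (f : V → W) (hf : Function.Injective f)
    (hadj : ∀ x y, G.Adj x y → H.Adj (f x) (f y)) : G.edgeSet.ncard ≤ H.edgeSet.ncard := by
  classical
  apply Set.ncard_le_ncard_of_injOn (Sym2.map f)
  · intro e he
    induction e with
    | h x y => exact hadj x y he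
  · exact (Sym2.map.injective hf).injOn

theorem ncard_le_sq {V : Type} [Fintype V] (G : SimpleGraph V) :
    G.edgeSet.ncard ≤ Fintype.card V ^ 2 := by
  classical
  rw [← SimpleGraph.coe_edgeFinset G, Set.ncard_coe_finset]
  refine (G.card_edgeFinset_le_card_choose_two).trans ?_
  rw [Nat.choose_two_right, sq]
  exact (Nat.div_le_self _ _).trans (Nat.mul_le_mul_left _ (Nat.sub_le _ _))

theorem edges_split {V : Type} [Fintype V] [DecidableEq V] (G : SimpleGraph V)
    [DecidableRel G.Adj] (S : Finset V) :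
    G.edgeSet.ncard ≤ (G.induce {v | v ∉ S}).edgeSet.ncard + ∑ v ∈ S, G.degree v := by
  classical
  rw [← SimpleGraph.coe_edgeFinset G, Set.ncard_coe_finset]
  have h1 : G.edgeFinset ⊆ (G.edgeFinset.filter (fun e => ∀ v ∈ S, v ∉ e)) ∪
      S.biUnion (fun v => G.incidenceFinset v) := by
    intro e he
    rw [mem_union, mem_filter, mem_biUnion]
    by_cases h : ∀ v ∈ S, v ∉ e
    · exact Or.inl ⟨he, h⟩
    · push Not at h
      obtain ⟨v, hv, hve⟩ := h
      right
      refine ⟨v, hv, ?_⟩
      rw [SimpleGraph.mem_incidenceFinset]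
      exact ⟨SimpleGraph.mem_edgeFinset.mp he, hve⟩
  have h2 : (S.biUnion (fun v => G.incidenceFinset v)).card ≤ ∑ v ∈ S, G.degree v := by
    refine card_biUnion_le.trans (le_of_eq ?_)
    apply sum_congr rfl
    intro v _
    exact G.card_incidenceFinset_eq_degree v
  have h3 : (G.edgeFinset.filter (fun e => ∀ v ∈ S, v ∉ e)).card ≤
      (G.induce {v | v ∉ S}).edgeSet.ncard := by
    have h4 : (G.edgeFinset.filter (fun e => ∀ v ∈ S, v ∉ e)) ⊆
        (G.induce {v | v ∉ S}).edgeFinset.image (Sym2.map Subtype.val) := by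
      intro e he
      rw [mem_filter] at he
      obtain ⟨he1, he2⟩ := he
      induction e with
      | h x y =>
        rw [mem_image]
        have hx : x ∉ S := fun hx => he2 x hx (Sym2.mem_mk_left x y)
        have hy : y ∉ S := fun hy => he2 y hy (Sym2.mem_mk_right x y)
        refine ⟨s(⟨x, hx⟩, ⟨y, hy⟩), ?_, rfl⟩
        rw [SimpleGraph.mem_edgeFinset] at he1 ⊢
        exact he1
    refine (card_le_card h4).trans (card_image_le.trans ?_)
    rw [← SimpleGraph.coe_edgeFinset (G.induce {v | v ∉ S}), Set.ncard_coe_finset]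
  calc G.edgeFinset.card ≤ _ := card_le_card h1
    _ ≤ _ := card_union_le _ _
    _ ≤ _ := Nat.add_le_add h3 h2

/-! ### The Erdős–Stone theorem, edge version -/

open SimpleGraph in
theorem erdosStone (q m : ℕ) (hq : 2 ≤ q) (ε : ℝ) (hε : 0 < ε) :
    ∃ C : ℝ, ∀ (n : ℕ) (V : Type) [Fintype V] (G : SimpleGraph V), Fintype.card V = n →
      ¬ (completeEquipartiteGraph q m ⊑ G) →
      (G.edgeSet.ncard : ℝ) ≤ ((1 - 1 / ((q : ℝ) - 1)) / 2 + ε) * (n : ℝ) ^ 2 + C := by
  classical
  obtain ⟨r, rfl⟩ : ∃ r, q = r + 1 := ⟨q - 1, by omega⟩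
  have hr1 : 1 ≤ r := by omega
  obtain ⟨n₁, hn₁⟩ := Filter.eventually_atTop.mp
    (SimpleGraph.eventually_completeEquipartiteGraph_isContained_of_minDegree hε r m)
  set c : ℝ := 1 - 1 / (r : ℝ) + ε with hc
  have hr0 : (1 : ℝ) ≤ r := by exact_mod_cast hr1
  have h1r : 1 / (r : ℝ) ≤ 1 := by
    rw [div_le_one (by linarith)]
    exact hr0
  have hc0 : 0 < c := by linarith
  have key : ∀ (n : ℕ) (V : Type) [Fintype V] (G : SimpleGraph V), Fintype.card V = n →
      ¬ (completeEquipartiteGraph (r + 1) m ⊑ G) →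
      (G.edgeSet.ncard : ℝ) ≤ c * (n * (n + 1) / 2) + (n₁ : ℝ) ^ 2 := by
    intro n
    induction n with
    | zero =>
      intro V _ G hV _
      have h1 := ncard_le_sq G
      rw [hV] at h1
      have h2 : G.edgeSet.ncard = 0 := by omega
      rw [h2]
      push_cast
      positivity
    | succ n ih =>
      intro V _ G hV hfree
      by_cases hn : n + 1 < n₁
      · have h1 := ncard_le_sq G
        rw [hV] at h1
        have h2 : (n + 1) ^ 2 ≤ n₁ ^ 2 := Nat.pow_le_pow_left hn.le 2
        have h3 : (G.edgeSet.ncard : ℝ) ≤ (n₁ : ℝ) ^ 2 := by exact_mod_cast h1.trans h2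
        have h4 : (0 : ℝ) ≤ c * (((n + 1 : ℕ) : ℝ) * (((n + 1 : ℕ) : ℝ) + 1) / 2) := by positivity
        linarith
      · push Not at hn
        let G' := G.overFin hV
        have hfree' : ¬ (completeEquipartiteGraph (r + 1) m ⊑ G') := by
          intro h
          exact hfree ((isContained_congr_right (G.overFinIso hV)).mpr h)
        have hmin : ¬ ((G'.minDegree : ℝ) ≥ (1 - 1 / (r : ℝ) + ε) * ((n + 1 : ℕ) : ℝ)) := by
          intro h
          exact hfree' (hn₁ (n + 1) hn h)
        have : Nonempty (Fin (n + 1)) := ⟨0⟩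
        obtain ⟨v', hv'⟩ := G'.exists_minimal_degree_vertex
        let v := (G.overFinIso hV).symm v'
        have hdeg : G.degree v = G'.degree v' := by
          rw [← (G.overFinIso hV).symm.degree_eq v']
        have hdlt : (G.degree v : ℝ) ≤ c * ((n : ℝ) + 1) := by
          rw [hdeg, ← hv']
          push Not at hmin
          push_cast at hmin
          exact hmin.le
        have hsplit := edges_split G {v}
        rw [sum_singleton] at hsplit
        have hcardV : Fintype.card {x | x ∉ ({v} : Finset V)} = n := by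
          have h1 := Fintype.card_subtype_compl (fun x => x ∈ ({v} : Finset V))
          have h2 : Fintype.card {x // x ∈ ({v} : Finset V)} = 1 := by simp
          rw [h2, hV] at h1
          have h3 : Fintype.card {x | x ∉ ({v} : Finset V)} =
              Fintype.card {x // ¬ x ∈ ({v} : Finset V)} := by
            apply Fintype.card_congr
            exact Equiv.refl _
          rw [h3, h1]
          omega
        have hfreeS : ¬ (completeEquipartiteGraph (r + 1) m ⊑
            G.induce {x | x ∉ ({v} : Finset V)}) := by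
          intro h
          exact hfree (h.trans (SimpleGraph.Embedding.induce _).isContained)
        have hih := ih {x | x ∉ ({v} : Finset V)} (G.induce {x | x ∉ ({v} : Finset V)})
          hcardV hfreeS
        have hsplit' : (G.edgeSet.ncard : ℝ) ≤
            ((G.induce {x | x ∉ ({v} : Finset V)}).edgeSet.ncard : ℝ) + (G.degree v : ℝ) := by
          exact_mod_cast hsplit
        push_cast
        nlinarith
  refine ⟨(n₁ : ℝ) ^ 2 + c ^ 2 / ε, fun n V _ G hV hfree => ?_⟩
  have h := key n V G hV hfree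
  have h2 : c * (n * (n + 1) / 2) ≤
      ((1 - 1 / (((r + 1 : ℕ) : ℝ) - 1)) / 2 + ε) * (n : ℝ) ^ 2 + c ^ 2 / ε := by
    have h3 : ((r + 1 : ℕ) : ℝ) - 1 = r := by push_cast; ring
    rw [h3]
    have h4 : c * (n * (n + 1) / 2) = c / 2 * (n : ℝ) ^ 2 + c / 2 * n := by ring
    have h5 : ((1 - 1 / (r : ℝ)) / 2 + ε) = c / 2 + ε / 2 := by rw [hc]; ring
    rw [h4, h5]
    have h6 : c / 2 * n ≤ ε / 2 * (n : ℝ) ^ 2 + c ^ 2 / ε := by
      have h7 : c ^ 2 / ε = (c ^ 2) * (1 / ε) := by ring
      have h8 : 0 ≤ (ε * n - c) ^ 2 := sq_nonneg _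
      have h9 : c / 2 * n * ε ≤ (ε / 2 * (n : ℝ) ^ 2 + c ^ 2 / ε) * ε := by
        have h10 : (ε / 2 * (n : ℝ) ^ 2 + c ^ 2 / ε) * ε = ε ^ 2 * (n : ℝ) ^ 2 / 2 + c ^ 2 := by
          field_simp
        rw [h10]
        nlinarith [sq_nonneg (ε * (n : ℝ) - c), sq_nonneg (ε * (n : ℝ))]
      exact le_of_mul_le_mul_right h9 hε
    linarith
  linarith

end Pool.Agent.H166R2.VC
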