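import Mathlib
import Pool.Agent.H166R2.VC.Upper

set_option autoImplicit false

namespace Pool.Agent.H166R2.VC

open Finset

/-- `φ` is proper on `G - x`. -/
def Off {V : Type} {q : ℕ} (G : SimpleGraph V) (x : V) (φ : V → Fin q) : Prop :=
  ∀ u v, u ≠ x → v ≠ x → G.Adj u v → φ u ≠ φ v

section Rigid

variable {V : Type} [Fintype V] {q m : ℕ} (G : SimpleGraph V) (f : Fin q → Fin m → V)

/-- The core is a complete `q`-partite graph with parts of size `m`. -/
structure Core : Prop where
  inj : ∀ i j a b, f i a = f j b → i = j ∧ a = b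
  adj : ∀ i j a b, i ≠ j → G.Adj (f i a) (f j b)

variable {G f}

theorem Core.exists_ne (hf : Core G f) (hm : 2 ≤ m) (x : V) (i : Fin q) : ∃ a, f i a ≠ x := by
  by_contra h
  push Not at h
  have h1 := h ⟨0, by omega⟩
  have h2 := h ⟨1, by omega⟩
  have h3 := (hf.inj i i _ _ (h1.trans h2.symm)).2
  simp only [Fin.mk.injEq] at h3
  omega

/-- All colours occur on a transversal of the core. -/
theorem Core.exists_col (hf : Core G f) (x : V) (φ : V → Fin q) (hφ : Off G x φ)
    (t : Fin q → Fin m) (ht : ∀ i, f i (t i) ≠ x) (c : Fin q) : ∃ i, φ (f i (t i)) = c := by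
  have hinj : Function.Injective (fun i => φ (f i (t i))) := by
    intro i j hij
    by_contra hne
    exact hφ _ _ (ht i) (ht j) (hf.adj _ _ _ _ hne) hij
  exact (Finite.injective_iff_surjective.mp hinj) c

theorem Core.const (hf : Core G f) (hm : 2 ≤ m) (x : V) (φ : V → Fin q) (hφ : Off G x φ)
    (i : Fin q) (a b : Fin m) (ha : f i a ≠ x) (hb : f i b ≠ x) : φ (f i a) = φ (f i b) := by
  classical
  choose t ht using fun j => hf.exists_ne hm x j
  let t' : Fin q → Fin m := fun j => if j = i then a else t j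
  have ht' : ∀ j, f j (t' j) ≠ x := by
    intro j
    simp only [t']
    split_ifs with h
    · rw [h]; exact ha
    · exact ht j
  obtain ⟨j, hj⟩ := hf.exists_col x φ hφ t' ht' (φ (f i b))
  by_cases h : j = i
  · subst h
    simp only [t', if_true] at hj
    exact hj
  · exfalso
    exact hφ _ _ (ht' j) hb (hf.adj _ _ _ _ h) hj

variable (G f)

/-- The vertices that always get the colour of class `i` of the core. -/
def Cls (i : Fin q) : Set V :=
  {v | ∀ (x : V) (φ : V → Fin q), v ≠ x → Off G x φ → ∀ a, f i a ≠ x → φ v = φ (f i a)}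

variable {G f}

theorem core_mem (hf : Core G f) (hm : 2 ≤ m) (i : Fin q) (a : Fin m) : f i a ∈ Cls G f i := by
  intro x φ hx hφ b hb
  exact hf.const hm x φ hφ i a b hx hb

theorem cls_eq (hf : Core G f) (hm : 2 ≤ m) {i : Fin q} {v w x : V} {φ : V → Fin q}
    (hv : v ∈ Cls G f i) (hw : w ∈ Cls G f i) (hvx : v ≠ x) (hwx : w ≠ x) (hφ : Off G x φ) :
    φ v = φ w := by
  obtain ⟨a, ha⟩ := hf.exists_ne hm x i
  rw [hv x φ hvx hφ a ha, hw x φ hwx hφ a ha]

theorem cls_ne (hf : Core G f) (hm : 2 ≤ m) {i j : Fin q} (hij : i ≠ j) {v w x : V}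
    {φ : V → Fin q} (hv : v ∈ Cls G f i) (hw : w ∈ Cls G f j) (hvx : v ≠ x) (hwx : w ≠ x)
    (hφ : Off G x φ) : φ v ≠ φ w := by
  obtain ⟨a, ha⟩ := hf.exists_ne hm x i
  obtain ⟨b, hb⟩ := hf.exists_ne hm x j
  rw [hv x φ hvx hφ a ha, hw x φ hwx hφ b hb]
  exact hφ _ _ ha hb (hf.adj _ _ _ _ hij)

theorem cls_disj (hf : Core G f) (hm : 2 ≤ m) (hV : VCol q G) (hc : 2 ≤ Fintype.card V)
    {i j : Fin q} {v : V} (hv : v ∈ Cls G f i) (hw : v ∈ Cls G f j) : i = j := by
  by_contra hij
  obtain ⟨x, hx⟩ : ∃ x, x ≠ v := Fintype.exists_ne_of_one_lt_card (by omega) v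
  obtain ⟨φ, hφ⟩ := hV x
  exact cls_ne hf hm hij hv hw hx.symm hx.symm hφ rfl

theorem cls_indep (hf : Core G f) (hm : 2 ≤ m) (hV : VCol q G) (hc : 3 ≤ Fintype.card V)
    {i : Fin q} {v w : V} (hv : v ∈ Cls G f i) (hw : w ∈ Cls G f i) : ¬ G.Adj v w := by
  classical
  intro hadj
  obtain ⟨x, hx⟩ : ∃ x, x ∉ ({v, w} : Finset V) := by
    by_contra h
    push Not at h
    have h1 : (univ : Finset V) ⊆ {v, w} := fun x _ => h x
    have h2 := (card_le_card h1).trans card_le_two
    rw [card_univ] at h2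
    omega
  simp only [mem_insert, mem_singleton, not_or] at hx
  obtain ⟨φ, hφ⟩ := hV x
  exact hφ v w (Ne.symm hx.1) (Ne.symm hx.2) hadj
    (cls_eq hf hm hv hw (Ne.symm hx.1) (Ne.symm hx.2) hφ)

/-- A vertex with two neighbours in all classes but the `i`-th one is in the `i`-th class. -/
theorem mem_cls (hf : Core G f) (hm : 2 ≤ m) {i : Fin q} {u : V}
    (h : ∀ j, j ≠ i → ∃ v w, v ≠ w ∧ v ∈ Cls G f j ∧ w ∈ Cls G f j ∧ G.Adj u v ∧ G.Adj u w) :
    u ∈ Cls G f i := by
  classical
  intro x φ hux hφ a ha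
  choose t ht using fun j => hf.exists_ne hm x j
  obtain ⟨j, hj⟩ := hf.exists_col x φ hφ t ht (φ u)
  by_cases hji : j = i
  · subst hji
    rw [← hj]
    exact hf.const hm x φ hφ j _ _ (ht j) ha
  · exfalso
    obtain ⟨v, w, hvw, hv, hw, huv, huw⟩ := h j hji
    by_cases hvx : v = x
    · have hwx : w ≠ x := fun h => hvw (hvx.trans h.symm)
      apply hφ u w hux hwx huw
      rw [← hj]
      exact cls_eq hf hm (core_mem hf hm j (t j)) hw (ht j) hwx hφ
    · apply hφ u v hux hvx huv
      rw [← hj]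
      exact cls_eq hf hm (core_mem hf hm j (t j)) hv (ht j) hvx hφ

/-- No vertex has neighbours in all classes. -/
theorem not_all (hf : Core G f) (hm : 2 ≤ m) (hV : VCol q G) (hc : q + 2 ≤ Fintype.card V)
    (u : V) : ¬ ∀ i, ∃ v, v ∈ Cls G f i ∧ G.Adj u v := by
  classical
  intro h
  choose w hw using h
  obtain ⟨x, hx⟩ : ∃ x, x ∉ insert u (univ.image w) := by
    by_contra h
    push Not at h
    have h1 : (univ : Finset V) ⊆ insert u (univ.image w) := fun x _ => h x
    have h2 := (card_le_card h1).trans (card_insert_le _ _)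
    have h3 := card_image_le (s := (univ : Finset (Fin q))) (f := w)
    rw [card_univ] at h2
    rw [card_univ, Fintype.card_fin] at h3
    omega
  rw [mem_insert, not_or] at hx
  have hwx : ∀ i, w i ≠ x := fun i h => hx.2 (mem_image.mpr ⟨i, mem_univ _, h⟩)
  obtain ⟨φ, hφ⟩ := hV x
  have hinj : Function.Injective (fun i => φ (w i)) := by
    intro i j hij
    by_contra hne
    exact cls_ne hf hm hne (hw i).1 (hw j).1 (hwx i) (hwx j) hφ hij
  obtain ⟨i, hi⟩ := (Finite.injective_iff_surjective.mp hinj) (φ u)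
  exact hφ u (w i) (Ne.symm hx.1) (hwx i) (hw i).2 hi.symm

/-- Every vertex of a class has a private neighbour. -/
theorem exists_private (hf : Core G f) (hm : 2 ≤ m) (hN : NoCol q G) (hV : VCol q G)
    (hc : 3 ≤ Fintype.card V) {i : Fin q} {a : V} (ha : a ∈ Cls G f i) :
    ∃ d, (∀ j, d ∉ Cls G f j) ∧ ∀ v, v ∈ Cls G f i → (G.Adj d v ↔ v = a) := by
  classical
  obtain ⟨φ, hφ⟩ := hV a
  obtain ⟨b, hb⟩ := hf.exists_ne hm a i
  obtain ⟨d, hda, hdc⟩ : ∃ d, G.Adj d a ∧ φ d = φ (f i b) := by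
    by_contra hno
    push Not at hno
    obtain ⟨x, y, hxy, he⟩ := hN (Function.update φ a (φ (f i b)))
    by_cases hx : x = a
    · subst hx
      have hy : y ≠ x := hxy.ne'
      rw [Function.update_self, Function.update_of_ne hy] at he
      exact hno y hxy.symm he.symm
    · rw [Function.update_of_ne hx] at he
      by_cases hy : y = a
      · subst hy
        rw [Function.update_self] at he
        exact hno x hxy he
      · rw [Function.update_of_ne hy] at he
        exact hφ x y hx hy hxy he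
  have hdne : d ≠ a := hda.ne
  refine ⟨d, ?_, ?_⟩
  · intro j hj
    by_cases hji : j = i
    · subst hji
      exact cls_indep hf hm hV hc hj ha hda
    · exact cls_ne hf hm hji hj (core_mem hf hm i b) hdne hb hφ hdc
  · intro v hv
    constructor
    · intro hadj
      by_contra hva
      apply hφ d v hdne hva hadj
      rw [hdc]
      exact cls_eq hf hm (core_mem hf hm i b) hv hb hva hφ
    · rintro rfl
      exact hda

end Rigid

end Pool.Agent.H166R2.VC
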