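import Mathlib
import Pool.Agent.H166R2.VC.Rigid

set_option autoImplicit false

namespace Pool.Agent.H166R2.VC

open Finset

section Count

variable {V : Type} [Fintype V] [DecidableEq V] {q m : ℕ} (G : SimpleGraph V)
  [DecidableRel G.Adj] (f : Fin q → Fin m → V)

open Classical in
/-- The `i`-th class as a finset. -/
noncomputable def A (i : Fin q) : Finset V := univ.filter (fun v => v ∈ Cls G f i)

open Classical in
/-- Neighbours in the `i`-th class. -/
noncomputable def N (i : Fin q) (u : V) : Finset V := (A G f i).filter (fun v => G.Adj u v)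

/-- Classes with at least two neighbours. -/
noncomputable def two (u : V) : Finset (Fin q) := univ.filter (fun i => 2 ≤ (N G f i u).card)

/-- Classes with exactly one neighbour. -/
noncomputable def one (u : V) : Finset (Fin q) := univ.filter (fun i => (N G f i u).card = 1)

/-- The union of the classes. -/
noncomputable def K : Finset V := univ.biUnion (A G f)

variable {G f}

theorem mem_A {i : Fin q} {v : V} : v ∈ A G f i ↔ v ∈ Cls G f i := by
  simp [A]

theorem mem_N {i : Fin q} {u v : V} : v ∈ N G f i u ↔ v ∈ Cls G f i ∧ G.Adj u v := by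
  simp [N, mem_A]

theorem two_add_one (hf : Core G f) (hm : 2 ≤ m) (hV : VCol q G) (hc : q + 2 ≤ Fintype.card V)
    (u : V) : (two G f u).card + (one G f u).card + 1 ≤ q := by
  obtain ⟨i, hi⟩ : ∃ i, ∀ v, v ∈ Cls G f i → ¬ G.Adj u v := by
    have h := not_all hf hm hV hc u
    push Not at h
    exact h
  have h0 : (N G f i u).card = 0 := by
    rw [card_eq_zero, eq_empty_iff_forall_notMem]
    intro v hv
    rw [mem_N] at hv
    exact hi v hv.1 hv.2
  have hdisj : Disjoint (two G f u) (one G f u) := by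
    rw [disjoint_left]
    intro j hj hj'
    simp only [two, one, mem_filter, mem_univ, true_and] at hj hj'
    omega
  rw [← card_union_of_disjoint hdisj]
  have hsub : two G f u ∪ one G f u ⊆ univ.erase i := by
    intro j hj
    rw [mem_erase]
    refine ⟨?_, mem_univ _⟩
    rintro rfl
    simp only [two, one, mem_union, mem_filter, mem_univ, true_and] at hj
    omega
  have h1 := card_le_card hsub
  rw [card_erase_of_mem (mem_univ i), card_univ, Fintype.card_fin] at h1
  have := i.2
  omega

theorem two_le (hf : Core G f) (hm : 2 ≤ m) (hq : 2 ≤ q) (u : V) (hu : u ∉ K G f) :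
    (two G f u).card + 2 ≤ q := by
  by_contra hcon
  have h1 : (two G f u)ᶜ.card ≤ 1 := by
    rw [card_compl, Fintype.card_fin]
    omega
  obtain ⟨i, hi⟩ : ∃ i, ∀ j, j ≠ i → j ∈ two G f u := by
    by_cases h : (two G f u)ᶜ = ∅
    · refine ⟨⟨0, by omega⟩, fun j _ => ?_⟩
      by_contra hj
      have : j ∈ (two G f u)ᶜ := mem_compl.mpr hj
      rw [h] at this
      exact absurd this (notMem_empty _)
    · obtain ⟨i, hi⟩ := nonempty_iff_ne_empty.mpr h
      refine ⟨i, fun j hj => ?_⟩
      by_contra hj'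
      exact hj (card_le_one.mp h1 j (mem_compl.mpr hj') i hi)
  apply hu
  rw [K, mem_biUnion]
  refine ⟨i, mem_univ _, mem_A.mpr (mem_cls hf hm ?_)⟩
  intro j hj
  have h2 := hi j hj
  simp only [two, mem_filter, mem_univ, true_and] at h2
  obtain ⟨v, hv, w, hw, hvw⟩ := one_lt_card.mp (show 1 < (N G f j u).card by omega)
  rw [mem_N] at hv hw
  exact ⟨v, w, hvw, hv.1, hw.1, hv.2, hw.2⟩

theorem card_A_le (hf : Core G f) (hm : 2 ≤ m) (hN : NoCol q G) (hV : VCol q G)
    (hc : 3 ≤ Fintype.card V) (i : Fin q) :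
    (A G f i).card ≤ ((K G f)ᶜ.filter (fun u => i ∈ one G f u)).card := by
  classical
  have h : ∀ a : V, ∃ d : V, a ∈ Cls G f i →
      ((∀ j, d ∉ Cls G f j) ∧ ∀ v, v ∈ Cls G f i → (G.Adj d v ↔ v = a)) := by
    intro a
    by_cases ha : a ∈ Cls G f i
    · obtain ⟨d, hd⟩ := exists_private hf hm hN hV hc ha
      exact ⟨d, fun _ => hd⟩
    · exact ⟨a, fun h => absurd h ha⟩
  choose d hd using h
  apply card_le_card_of_injOn d
  · intro a ha
    rw [mem_coe, mem_A] at ha
    rw [mem_coe, mem_filter, mem_compl]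
    obtain ⟨h1, h2⟩ := hd a ha
    constructor
    · intro h3
      rw [K, mem_biUnion] at h3
      obtain ⟨j, _, hj⟩ := h3
      exact h1 j (mem_A.mp hj)
    · simp only [one, mem_filter, mem_univ, true_and]
      rw [card_eq_one]
      refine ⟨a, ?_⟩
      ext v
      rw [mem_N, mem_singleton]
      constructor
      · rintro ⟨h3, h4⟩
        exact (h2 v h3).mp h4
      · rintro rfl
        exact ⟨ha, (h2 v ha).mpr rfl⟩
  · intro a ha b hb hab
    rw [mem_coe, mem_A] at ha hb
    have h1 := ((hd a ha).2 a ha).mpr rfl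
    rw [hab] at h1
    exact ((hd b hb).2 a ha).mp h1

theorem card_K (hf : Core G f) (hm : 2 ≤ m) (hV : VCol q G) (hc : 3 ≤ Fintype.card V) :
    (K G f).card = ∑ i, (A G f i).card := by
  rw [K, card_biUnion]
  intro i _ j _ hij
  change Disjoint (A G f i) (A G f j)
  rw [disjoint_left]
  intro v hv hv'
  rw [mem_A] at hv hv'
  exact hij (cls_disj hf hm hV (by omega) hv hv')

theorem sum_one (hf : Core G f) (hm : 2 ≤ m) (hN : NoCol q G) (hV : VCol q G)
    (hc : 3 ≤ Fintype.card V) :
    (K G f).card ≤ ∑ u ∈ (K G f)ᶜ, (one G f u).card := by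
  classical
  rw [card_K hf hm hV hc]
  calc ∑ i, (A G f i).card
      ≤ ∑ i, ((K G f)ᶜ.filter (fun u => i ∈ one G f u)).card :=
        sum_le_sum (fun i _ => card_A_le hf hm hN hV hc i)
    _ = ∑ u ∈ (K G f)ᶜ, (one G f u).card := by
        simp_rw [card_eq_sum_ones, sum_filter]
        rw [sum_comm]
        apply sum_congr rfl
        intro u _
        rw [← sum_filter]
        congr 1
        ext i
        simp

/-- The core. -/
def T (f : Fin q → Fin m → V) : Finset V := univ.image (fun p : Fin q × Fin m => f p.1 p.2)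

theorem card_T (hf : Core G f) : (T f).card = q * m := by
  rw [T, card_image_of_injective, card_univ, Fintype.card_prod, Fintype.card_fin,
    Fintype.card_fin]
  rintro ⟨i, a⟩ ⟨j, b⟩ h
  obtain ⟨h1, h2⟩ := hf.inj i j a b h
  rw [h1, h2]

theorem deg_sum (f : Fin q → Fin m → V) :
    ∑ v ∈ T f, G.degree v = ∑ u, ((T f).filter (fun v => G.Adj u v)).card := by
  simp_rw [← G.card_neighborFinset_eq_degree, G.neighborFinset_eq_filter, card_eq_sum_ones,
    sum_filter]
  rw [sum_comm]
  apply sum_congr rfl
  intro u _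
  apply sum_congr rfl
  intro v _
  simp only [G.adj_comm]

theorem filter_le (f : Fin q → Fin m → V) (u : V) :
    ((T f).filter (fun v => G.Adj u v)).card ≤
      ∑ i, ((univ.image (f i)).filter (fun v => G.Adj u v)).card := by
  have h : (T f).filter (fun v => G.Adj u v) ⊆
      univ.biUnion (fun i => (univ.image (f i)).filter (fun v => G.Adj u v)) := by
    intro v hv
    rw [mem_filter, T, mem_image] at hv
    obtain ⟨⟨⟨i, a⟩, _, rfl⟩, h2⟩ := hv
    rw [mem_biUnion]
    exact ⟨i, mem_univ _, mem_filter.mpr ⟨mem_image.mpr ⟨a, mem_univ _, rfl⟩, h2⟩⟩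
  exact (card_le_card h).trans card_biUnion_le

theorem filter_le_m (f : Fin q → Fin m → V) (u : V) (i : Fin q) :
    ((univ.image (f i)).filter (fun v => G.Adj u v)).card ≤ m := by
  refine (card_filter_le _ _).trans (card_image_le.trans ?_)
  rw [card_univ, Fintype.card_fin]

theorem filter_K (hf : Core G f) (hm : 2 ≤ m) (hV : VCol q G) (hc : 3 ≤ Fintype.card V)
    (u : V) (hu : u ∈ K G f) :
    ((T f).filter (fun v => G.Adj u v)).card ≤ (q - 1) * m := by
  refine (filter_le f u).trans ?_
  rw [K, mem_biUnion] at hu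
  obtain ⟨i, _, hi⟩ := hu
  rw [mem_A] at hi
  rw [← add_sum_erase _ _ (mem_univ i)]
  have h0 : ((univ.image (f i)).filter (fun v => G.Adj u v)).card = 0 := by
    rw [card_eq_zero, eq_empty_iff_forall_notMem]
    intro v hv
    rw [mem_filter, mem_image] at hv
    obtain ⟨⟨a, _, rfl⟩, h2⟩ := hv
    exact cls_indep hf hm hV hc hi (core_mem hf hm i a) h2
  rw [h0, zero_add]
  calc ∑ j ∈ univ.erase i, ((univ.image (f j)).filter (fun v => G.Adj u v)).card
      ≤ ∑ _j ∈ univ.erase i, m := sum_le_sum (fun j _ => filter_le_m f u j)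
    _ = (q - 1) * m := by
      rw [sum_const, card_erase_of_mem (mem_univ i), card_univ, Fintype.card_fin, smul_eq_mul]

theorem filter_R (hf : Core G f) (hm : 2 ≤ m) (u : V) :
    ((T f).filter (fun v => G.Adj u v)).card ≤ (two G f u).card * m + q := by
  classical
  refine (filter_le f u).trans ?_
  have h : ∀ i, ((univ.image (f i)).filter (fun v => G.Adj u v)).card ≤
      (if i ∈ two G f u then m else 0) + 1 := by
    intro i
    by_cases hi : i ∈ two G f u
    · rw [if_pos hi]
      have := filter_le_m (G := G) f u i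
      omega
    · rw [if_neg hi]
      simp only [two, mem_filter, mem_univ, true_and] at hi
      have hsub : (univ.image (f i)).filter (fun v => G.Adj u v) ⊆ N G f i u := by
        intro v hv
        rw [mem_filter, mem_image] at hv
        obtain ⟨⟨a, _, rfl⟩, h2⟩ := hv
        exact mem_N.mpr ⟨core_mem hf hm i a, h2⟩
      have := card_le_card hsub
      omega
  calc _ ≤ ∑ i, ((if i ∈ two G f u then m else 0) + 1) := sum_le_sum (fun i _ => h i)
    _ = (two G f u).card * m + q := by
      rw [sum_add_distrib, ← sum_filter, sum_const, sum_const, card_univ, Fintype.card_fin,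
        smul_eq_mul, smul_eq_mul, mul_one]
      congr 2
      congr 1
      ext i
      simp

/-- The degree sum of the core. -/
theorem core_deg (hf : Core G f) (hm : 2 ≤ m) (hq : 3 ≤ q) (hN : NoCol q G) (hV : VCol q G)
    (hc : q + 2 ≤ Fintype.card V) :
    ((q : ℝ) - 1) * ((∑ v ∈ T f, G.degree v : ℕ) : ℝ) ≤
      m * q * (q - 2) * Fintype.card V + q * (q - 1) * Fintype.card V := by
  set κ := (K G f).card with hκ
  set R := (K G f)ᶜ with hR
  have hn : κ + R.card = Fintype.card V := card_add_card_compl _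
  set L := ∑ u ∈ R, (two G f u).card with hL
  have hL1 : L + 2 * R.card ≤ q * R.card := by
    calc L + 2 * R.card = ∑ u ∈ R, ((two G f u).card + 2) := by
          rw [sum_add_distrib, sum_const, smul_eq_mul]
          ring
      _ ≤ ∑ _u ∈ R, q := sum_le_sum (fun u hu => two_le hf hm (by omega) u
          (mem_compl.mp hu))
      _ = q * R.card := by rw [sum_const, smul_eq_mul]; ring
  have hL2 : L + κ + R.card ≤ q * R.card := by
    have h1 : κ ≤ ∑ u ∈ R, (one G f u).card := sum_one hf hm hN hV (by omega)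
    calc L + κ + R.card ≤ L + ∑ u ∈ R, (one G f u).card + R.card := by omega
      _ = ∑ u ∈ R, ((two G f u).card + (one G f u).card + 1) := by
          rw [sum_add_distrib, sum_add_distrib, sum_const, smul_eq_mul]
          ring
      _ ≤ ∑ _u ∈ R, q := sum_le_sum (fun u _ => two_add_one hf hm hV hc u)
      _ = q * R.card := by rw [sum_const, smul_eq_mul]; ring
  have hD : ∑ v ∈ T f, G.degree v ≤ (q - 1) * m * κ + (L * m + q * R.card) := by
    rw [deg_sum f, ← sum_add_sum_compl (K G f)]
    apply Nat.add_le_add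
    · calc _ ≤ ∑ _u ∈ K G f, (q - 1) * m :=
            sum_le_sum (fun u hu => filter_K hf hm hV (by omega) u hu)
        _ = (q - 1) * m * κ := by rw [sum_const, smul_eq_mul]; ring
    · calc _ ≤ ∑ u ∈ R, ((two G f u).card * m + q) :=
            sum_le_sum (fun u _ => filter_R hf hm u)
        _ = L * m + q * R.card := by
            rw [sum_add_distrib, ← sum_mul, sum_const, smul_eq_mul]
            ring
  have hD' : ((∑ v ∈ T f, G.degree v : ℕ) : ℝ) ≤
      ((q : ℝ) - 1) * m * κ + (L * m + q * R.card) := by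
    have h1 := (Nat.cast_le (α := ℝ)).mpr hD
    rw [Nat.cast_add, Nat.cast_mul, Nat.cast_mul, Nat.cast_sub (by omega)] at h1
    push_cast at h1 ⊢
    exact h1
  have hL1' : (L : ℝ) + 2 * R.card ≤ q * R.card := by exact_mod_cast hL1
  have hL2' : (L : ℝ) + κ + R.card ≤ q * R.card := by exact_mod_cast hL2
  have hn' : (κ : ℝ) + R.card = Fintype.card V := by exact_mod_cast hn
  have hq' : (3 : ℝ) ≤ q := by exact_mod_cast hq
  have hm' : (2 : ℝ) ≤ m := by exact_mod_cast hm
  have hκ0 : (0 : ℝ) ≤ κ := Nat.cast_nonneg _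
  have hR0 : (0 : ℝ) ≤ R.card := Nat.cast_nonneg _
  rw [← hn']
  have h1 : ((q : ℝ) - 1) * L ≤ (q - 2) * ((q - 2) * R.card) + ((q - 1) * R.card - κ) := by
    have h2 : ((q : ℝ) - 2) * L ≤ (q - 2) * ((q - 2) * R.card) := by
      apply mul_le_mul_of_nonneg_left _ (by linarith)
      linarith
    linarith
  have h3 : ((q : ℝ) - 1) * (((q : ℝ) - 1) * κ + L) ≤ q * (q - 2) * (κ + R.card) := by
    have h4 : ((q : ℝ) - 2) * ((q - 2) * R.card) + (q - 1) * R.card ≤
        q * (q - 2) * R.card := by
      have h5 : (0 : ℝ) ≤ (q - 3) * R.card := mul_nonneg (by linarith) hR0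
      nlinarith
    nlinarith
  calc ((q : ℝ) - 1) * ((∑ v ∈ T f, G.degree v : ℕ) : ℝ)
      ≤ ((q : ℝ) - 1) * (((q : ℝ) - 1) * m * κ + (L * m + q * R.card)) :=
        mul_le_mul_of_nonneg_left hD' (by linarith)
    _ = m * (((q : ℝ) - 1) * (((q : ℝ) - 1) * κ + L)) + q * (q - 1) * R.card := by ring
    _ ≤ m * (q * (q - 2) * (κ + R.card)) + q * (q - 1) * (κ + R.card) := by
        apply add_le_add
        · exact mul_le_mul_of_nonneg_left h3 (by linarith)
        · apply mul_le_mul_of_nonneg_left (by linarith)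
          apply mul_nonneg <;> linarith
    _ = _ := by ring

end Count

end Pool.Agent.H166R2.VC
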