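import Mathlib
import Pool.Agent.H166R2.VC.Count

set_option autoImplicit false

namespace Pool.Agent.H166R2.VC

open Finset

/-! ### Critical subgraphs -/

/-- Every non-`q`-colourable graph has a vertex-critical induced subgraph containing all the
vertices whose deletion makes the graph `q`-colourable. -/
theorem exists_crit {V : Type} [Fintype V] [DecidableEq V] {q : ℕ} (G : SimpleGraph V)
    (hq : 0 < q) (hN : NoCol q G) : ∃ X : Finset V, NoCol q (G.induce {v | v ∈ X}) ∧
      VCol q (G.induce {v | v ∈ X}) ∧ ∀ v, (∃ φ : V → Fin q, Off G v φ) → v ∈ X := by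
  classical
  let P : Finset V → Prop := fun X => ∀ ψ : V → Fin q, ∃ x ∈ X, ∃ y ∈ X, G.Adj x y ∧ ψ x = ψ y
  have hP : P univ := by
    intro ψ
    obtain ⟨x, y, h1, h2⟩ := hN ψ
    exact ⟨x, mem_univ _, y, mem_univ _, h1, h2⟩
  obtain ⟨X, hX, hmin⟩ := exists_min_image ((univ : Finset (Finset V)).filter P) Finset.card
    ⟨univ, mem_filter.mpr ⟨mem_univ _, hP⟩⟩
  have hPX : P X := (mem_filter.mp hX).2
  have hdel : ∀ x ∈ X, ¬ P (X.erase x) := by
    intro x hx h
    have h1 := hmin _ (mem_filter.mpr ⟨mem_univ _, h⟩)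
    rw [card_erase_of_mem hx] at h1
    have : 0 < X.card := card_pos.mpr ⟨x, hx⟩
    omega
  refine ⟨X, ?_, ?_, ?_⟩
  · intro ψ
    have hq0 : Nonempty (Fin q) := ⟨⟨0, hq⟩⟩
    obtain ⟨x, hx, y, hy, hadj, he⟩ :=
      hPX (fun v => if h : v ∈ X then ψ ⟨v, h⟩ else Classical.choice hq0)
    simp only [dif_pos hx, dif_pos hy] at he
    exact ⟨⟨x, hx⟩, ⟨y, hy⟩, hadj, he⟩
  · rintro ⟨v, hv⟩
    have h1 := hdel v hv
    simp only [P] at h1
    push Not at h1
    obtain ⟨ψ, hψ⟩ := h1
    refine ⟨fun x => ψ x.1, ?_⟩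
    intro x y hx hy hadj
    apply hψ x.1 _ y.1 _ hadj
    · exact mem_erase.mpr ⟨fun h => hx (Subtype.ext h), x.2⟩
    · exact mem_erase.mpr ⟨fun h => hy (Subtype.ext h), y.2⟩
  · rintro v ⟨φ, hφ⟩
    by_contra hv
    obtain ⟨x, hx, y, hy, hadj, he⟩ := hPX φ
    exact hφ x y (fun h => hv (h ▸ hx)) (fun h => hv (h ▸ hy)) hadj he

/-! ### Contraction of the core -/

section Contr

variable {V : Type} [Fintype V] {q m : ℕ} (G : SimpleGraph V) (f : Fin q → Fin m → V)

/-- Adjacency after contraction of the parts of the core. -/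
def CR : {v : V // v ∉ Set.range (fun p : Fin q × Fin m => f p.1 p.2)} ⊕ Fin q →
    {v : V // v ∉ Set.range (fun p : Fin q × Fin m => f p.1 p.2)} ⊕ Fin q → Prop
  | Sum.inl u, Sum.inl v => G.Adj u v
  | Sum.inl u, Sum.inr i => ∃ a, G.Adj u (f i a)
  | Sum.inr i, Sum.inl u => ∃ a, G.Adj u (f i a)
  | Sum.inr i, Sum.inr j => i ≠ j

/-- The graph obtained by contraction of the parts of the core. -/
def Contr : SimpleGraph
    ({v : V // v ∉ Set.range (fun p : Fin q × Fin m => f p.1 p.2)} ⊕ Fin q) where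
  Adj := CR G f
  symm := ⟨by
    intro x y h
    cases x with
    | inl x =>
      cases y with
      | inl y => exact SimpleGraph.Adj.symm h
      | inr i => exact h
    | inr i =>
      cases y with
      | inl y => exact h
      | inr j => exact Ne.symm h⟩
  loopless := ⟨by
    intro x h
    cases x with
    | inl x => exact G.loopless.irrefl _ h
    | inr i => exact h rfl⟩

variable {G f}

theorem contr_noCol (hf : Core G f) (hm : 2 ≤ m) (hN : NoCol q G) (hV : VCol q G)
    (hc : 3 ≤ Fintype.card V) : NoCol q (Contr G f) := by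
  classical
  intro ψ
  by_contra hno
  push Not at hno
  let φ : V → Fin q := fun v =>
    if h : v ∈ Set.range (fun p : Fin q × Fin m => f p.1 p.2) then ψ (Sum.inr h.choose.1)
    else ψ (Sum.inl ⟨v, h⟩)
  have hφ1 : ∀ i a, φ (f i a) = ψ (Sum.inr i) := by
    intro i a
    have h : f i a ∈ Set.range (fun p : Fin q × Fin m => f p.1 p.2) := ⟨(i, a), rfl⟩
    have h1 : φ (f i a) = ψ (Sum.inr h.choose.1) := dif_pos h
    rw [h1]
    have h2 := h.choose_spec
    have h3 := (hf.inj _ _ _ _ h2).1
    rw [h3]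
  have hφ2 : ∀ v (h : v ∉ Set.range (fun p : Fin q × Fin m => f p.1 p.2)),
      φ v = ψ (Sum.inl ⟨v, h⟩) := fun v h => dif_neg h
  obtain ⟨x, y, hxy, he⟩ := hN φ
  by_cases hx : x ∈ Set.range (fun p : Fin q × Fin m => f p.1 p.2)
  · obtain ⟨⟨i, a⟩, rfl⟩ := hx
    simp only at hxy he
    rw [hφ1] at he
    by_cases hy : y ∈ Set.range (fun p : Fin q × Fin m => f p.1 p.2)
    · obtain ⟨⟨j, b⟩, rfl⟩ := hy
      simp only at hxy he
      rw [hφ1] at he
      have hij : i ≠ j := by
        rintro rfl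
        exact cls_indep hf hm hV hc (core_mem hf hm i a) (core_mem hf hm i b) hxy
      exact hno (Sum.inr i) (Sum.inr j) hij he
    · rw [hφ2 y hy] at he
      exact hno (Sum.inr i) (Sum.inl ⟨y, hy⟩) ⟨a, hxy.symm⟩ he
  · rw [hφ2 x hx] at he
    by_cases hy : y ∈ Set.range (fun p : Fin q × Fin m => f p.1 p.2)
    · obtain ⟨⟨j, b⟩, rfl⟩ := hy
      simp only at hxy he
      rw [hφ1] at he
      exact hno (Sum.inl ⟨x, hx⟩) (Sum.inr j) ⟨b, hxy⟩ he
    · rw [hφ2 y hy] at he
      exact hno (Sum.inl ⟨x, hx⟩) (Sum.inl ⟨y, hy⟩) hxy he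

theorem contr_off (hf : Core G f) (hm : 2 ≤ m) (hV : VCol q G)
    (x : {v : V // v ∉ Set.range (fun p : Fin q × Fin m => f p.1 p.2)}) :
    ∃ ψ : _ → Fin q, Off (Contr G f) (Sum.inl x) ψ := by
  obtain ⟨φ, hφ⟩ := hV x.1
  let o : Fin m := ⟨0, by omega⟩
  let ψ : {v : V // v ∉ Set.range (fun p : Fin q × Fin m => f p.1 p.2)} ⊕ Fin q → Fin q :=
    fun z => match z with
    | Sum.inl u => φ u
    | Sum.inr i => φ (f i o)
  have hne : ∀ i a, f i a ≠ x.1 := fun i a h => x.2 ⟨(i, a), h⟩
  refine ⟨ψ, ?_⟩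
  intro u v hu hv huv
  cases u with
  | inl u =>
    have hu' : u.1 ≠ x.1 := fun h => hu (by rw [Subtype.ext h])
    cases v with
    | inl v =>
      have hv' : v.1 ≠ x.1 := fun h => hv (by rw [Subtype.ext h])
      exact hφ _ _ hu' hv' huv
    | inr i =>
      obtain ⟨a, ha⟩ := huv
      change φ u ≠ φ (f i o)
      rw [hf.const hm x.1 φ hφ i o a (hne _ _) (hne _ _)]
      exact hφ _ _ hu' (hne _ _) ha
  | inr i =>
    cases v with
    | inl v =>
      have hv' : v.1 ≠ x.1 := fun h => hv (by rw [Subtype.ext h])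
      obtain ⟨a, ha⟩ := huv
      change φ (f i o) ≠ φ v
      rw [hf.const hm x.1 φ hφ i o a (hne _ _) (hne _ _)]
      exact hφ _ _ (hne _ _) hv' ha.symm
    | inr j => exact hφ _ _ (hne _ _) (hne _ _) (hf.adj _ _ _ _ huv)

/-- One step of the induction. -/
theorem step [DecidableEq V] [DecidableRel G.Adj] (hf : Core G f) (hm : 2 ≤ m) (hq : 0 < q)
    (hN : NoCol q G) (hV : VCol q G) (hc : 3 ≤ Fintype.card V) :
    ∃ (W : Type) (_ : Fintype W) (H : SimpleGraph W), NoCol q H ∧ VCol q H ∧
      Fintype.card W + q * m ≤ Fintype.card V + q ∧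
      G.edgeSet.ncard ≤ H.edgeSet.ncard + ∑ v ∈ T f, G.degree v := by
  classical
  obtain ⟨X, hX1, hX2, hX3⟩ := exists_crit (Contr G f) hq (contr_noCol hf hm hN hV hc)
  refine ⟨{v | v ∈ X}, inferInstance, (Contr G f).induce {v | v ∈ X}, hX1, hX2, ?_, ?_⟩
  · have h1 : Fintype.card {v | v ∈ X} ≤ Fintype.card
        ({v : V // v ∉ Set.range (fun p : Fin q × Fin m => f p.1 p.2)} ⊕ Fin q) :=
      Fintype.card_subtype_le _
    have h2 : Fintype.card {v : V // v ∉ Set.range (fun p : Fin q × Fin m => f p.1 p.2)} +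
        q * m = Fintype.card V := by
      rw [← card_T hf]
      have h3 : Fintype.card {v : V // v ∉ Set.range (fun p : Fin q × Fin m => f p.1 p.2)} =
          (T f)ᶜ.card := by
        rw [Fintype.card_subtype]
        congr 1
        ext v
        simp [T]
      rw [h3]
      exact card_compl_add_card _
    rw [Fintype.card_sum, Fintype.card_fin] at h1
    omega
  · refine (edges_split G (T f)).trans ?_
    apply Nat.add_le_add_right
    have hnot : ∀ v : {v | v ∉ T f},
        v.1 ∉ Set.range (fun p : Fin q × Fin m => f p.1 p.2) := by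
      rintro ⟨v, hv⟩ ⟨p, hp⟩
      apply hv
      rw [T, mem_image]
      exact ⟨p, mem_univ _, hp⟩
    refine ncard_le_of_hom (fun v : {v | v ∉ T f} =>
      (⟨Sum.inl ⟨v.1, hnot v⟩, hX3 _ (contr_off hf hm hV _)⟩ : {v | v ∈ X})) ?_ ?_
    · intro v w h
      apply Subtype.ext
      have h1 := Sum.inl.inj (congrArg Subtype.val h)
      simpa using h1
    · intro v w h
      exact h

end Contr

/-- The upper bound. -/
theorem upper (q : ℕ) (hq : 3 ≤ q) (ε : ℝ) (hε : 0 < ε) :
    ∃ C : ℝ, ∀ (n : ℕ) (V : Type) [Fintype V] (G : SimpleGraph V), Fintype.card V = n →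
      NoCol q G → VCol q G →
      (G.edgeSet.ncard : ℝ) ≤ ((1 - 1 / ((q : ℝ) - 1)) / 2 + ε) * (n : ℝ) ^ 2 + C := by
  classical
  obtain ⟨m, hm⟩ := exists_nat_gt (2 / ε + 2)
  obtain ⟨C₁, hC₁⟩ := erdosStone q m (by omega) ε hε
  set c : ℝ := (1 - 1 / ((q : ℝ) - 1)) / 2 with hcdef
  have hq' : (3 : ℝ) ≤ q := by exact_mod_cast hq
  have hq1 : (0 : ℝ) < (q : ℝ) - 1 := by linarith
  have hinv : 1 / ((q : ℝ) - 1) ≤ 1 := by
    rw [div_le_one hq1]
    linarith
  have hinv0 : 0 < 1 / ((q : ℝ) - 1) := by positivity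
  have hc0 : 0 ≤ c := by rw [hcdef]; linarith
  have hc1 : 2 * c ≤ 1 := by rw [hcdef]; linarith
  have h2c : 2 * c * ((q : ℝ) - 1) = q - 2 := by
    rw [hcdef]
    field_simp
    ring
  have hm2 : (2 : ℝ) < m := by
    have : 0 < 2 / ε := by positivity
    linarith
  have hm2' : 2 ≤ m := by exact_mod_cast hm2.le
  set t : ℝ := q * (m - 1) with ht
  have ht0 : 0 < t := by
    rw [ht]
    apply mul_pos <;> linarith
  have hεt : 2 * q ≤ ε * t := by
    have h1 : 2 / ε < (m : ℝ) - 1 := by linarith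
    rw [div_lt_iff₀ hε] at h1
    rw [ht]
    nlinarith
  obtain ⟨n₀, hn₀⟩ := exists_nat_gt (max ((c + ε) * t / ε) ((q : ℝ) + 3))
  refine ⟨max C₁ ((n₀ : ℝ) ^ 2), ?_⟩
  intro n
  induction n using Nat.strong_induction_on with
  | _ n ih =>
    intro V _ G hVn hN hV
    by_cases hn : n < n₀
    · have h1 := ncard_le_sq G
      rw [hVn] at h1
      have h2 : n ^ 2 ≤ n₀ ^ 2 := Nat.pow_le_pow_left hn.le 2
      have h3 : (G.edgeSet.ncard : ℝ) ≤ (n₀ : ℝ) ^ 2 := by exact_mod_cast h1.trans h2
      have h4 : (0 : ℝ) ≤ (c + ε) * (n : ℝ) ^ 2 := by positivity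
      have h5 := le_max_right C₁ ((n₀ : ℝ) ^ 2)
      linarith
    · push Not at hn
      have hnr : (n₀ : ℝ) ≤ n := by exact_mod_cast hn
      by_cases hK : SimpleGraph.IsContained (SimpleGraph.completeEquipartiteGraph q m) G
      · obtain ⟨F⟩ := hK
        let f : Fin q → Fin m → V := fun i a => F (i, a)
        have hf : Core G f := by
          constructor
          · intro i j a b h
            have h1 := F.injective h
            simp only [Prod.mk.injEq] at h1
            exact h1
          · intro i j a b hij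
            exact F.toHom.map_adj (show (SimpleGraph.completeEquipartiteGraph q m).Adj
              (i, a) (j, b) from hij)
        have hnq : (q : ℝ) + 3 < n := lt_of_lt_of_le (lt_of_le_of_lt (le_max_right _ _) hn₀) hnr
        have hnq' : q + 3 < n := by exact_mod_cast hnq
        have hεn : (c + ε) * t ≤ ε * n := by
          have h1 : (c + ε) * t / ε < n :=
            lt_of_lt_of_le (lt_of_le_of_lt (le_max_left _ _) hn₀) hnr
          rw [div_lt_iff₀ hε] at h1
          linarith
        obtain ⟨W, _, H, hH1, hH2, hH3, hH4⟩ := step hf hm2' (by omega) hN hV (by omega)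
        have hdeg := core_deg hf hm2' hq hN hV (by omega)
        have hWn : Fintype.card W < n := by
          rw [hVn] at hH3
          have : q < q * m := by nlinarith
          omega
        have hIH := ih _ hWn W H rfl hH1 hH2
        have hW : (Fintype.card W : ℝ) + t ≤ n := by
          have h1 : ((Fintype.card W + q * m : ℕ) : ℝ) ≤ ((Fintype.card V + q : ℕ) : ℝ) := by
            exact_mod_cast hH3
          rw [hVn] at h1
          push_cast at h1
          rw [ht]
          linarith
        have hW0 : (0 : ℝ) ≤ Fintype.card W := Nat.cast_nonneg _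
        set w : ℝ := (Fintype.card W : ℝ)
        set D : ℝ := ((∑ v ∈ T f, G.degree v : ℕ) : ℝ) with hD
        have hE : (G.edgeSet.ncard : ℝ) ≤ (H.edgeSet.ncard : ℝ) + D := by
          rw [hD]
          exact_mod_cast hH4
        rw [hVn] at hdeg
        -- `D ≤ 2 c q m n + q n`
        have hD2 : D ≤ 2 * c * q * m * n + q * n := by
          have h1 : ((q : ℝ) - 1) * D ≤ (q - 1) * (2 * c * q * m * n + q * n) := by
            calc ((q : ℝ) - 1) * D ≤ m * q * (q - 2) * n + q * (q - 1) * n := hdeg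
              _ = m * q * (2 * c * ((q : ℝ) - 1)) * n + q * (q - 1) * n := by rw [h2c]
              _ = _ := by ring
          exact le_of_mul_le_mul_left h1 hq1
        have hn0 : (0 : ℝ) < n := by linarith
        have hsq : w ^ 2 ≤ (n - t) ^ 2 := by
          apply pow_le_pow_left₀ hW0
          linarith
        have hfin : (c + ε) * (n - t) ^ 2 + (2 * c * q * m * n + q * n) ≤
            (c + ε) * (n : ℝ) ^ 2 := by
          have e1 : (c + ε) * (n - t) ^ 2 + (2 * c * q * m * n + q * n) -
              (c + ε) * (n : ℝ) ^ 2 =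
              -(2 * ε * t * n) + (c + ε) * t * t + (2 * c) * q * n + q * n := by
            rw [ht]
            ring
          have e2 : (c + ε) * t * t ≤ ε * n * t := mul_le_mul_of_nonneg_right hεn ht0.le
          have e3 : 2 * c * (q * n) ≤ 1 * (q * n) := by
            apply mul_le_mul_of_nonneg_right hc1
            positivity
          have e4 : 2 * q * n ≤ ε * t * n := mul_le_mul_of_nonneg_right hεt hn0.le
          have e5 : -(2 * ε * t * n) + (c + ε) * t * t + (2 * c) * q * n + q * n ≤ 0 := by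
            have e6 : ε * n * t = ε * t * n := by ring
            have e7 : 2 * c * q * n = 2 * c * (q * n) := by ring
            have e8 : 2 * ε * t * n = ε * t * n + ε * t * n := by ring
            have e9 : 2 * (q : ℝ) * n = q * n + q * n := by ring
            rw [e7, e8]
            linarith
          linarith
        have hce : 0 ≤ c + ε := by linarith
        have hmul : (c + ε) * w ^ 2 ≤ (c + ε) * (n - t) ^ 2 :=
          mul_le_mul_of_nonneg_left hsq hce
        linarith
      · have h1 := hC₁ n V G hVn hK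
        have h2 := le_max_left C₁ ((n₀ : ℝ) ^ 2)
        linarith

end Pool.Agent.H166R2.VC
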