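import Mathlib
import Pool.Agent.H166R2.VC.Main

set_option autoImplicit false

namespace Pool.Agent.H166R2.VC

open Finset SimpleGraph

theorem noCol_iff {V : Type} (q : ℕ) (G : SimpleGraph V) : NoCol q G ↔ ¬ G.Colorable q := by
  constructor
  · rintro h ⟨C⟩
    obtain ⟨x, y, hxy, he⟩ := h C
    exact C.valid hxy he
  · intro h f
    by_contra hno
    push Not at hno
    exact h ⟨Coloring.mk f (fun {x y} hxy => hno x y hxy)⟩

theorem vCol_iff {V : Type} (q : ℕ) (hq : 0 < q) (G : SimpleGraph V) :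
    VCol q G ↔ ∀ v, (G.induce {w | w ≠ v}).Colorable q := by
  classical
  constructor
  · intro h v
    obtain ⟨f, hf⟩ := h v
    exact ⟨Coloring.mk (fun w => f w) (fun {x y} h => hf x y x.2 y.2 h)⟩
  · intro h v
    obtain ⟨C⟩ := h v
    refine ⟨fun w => if h : w ≠ v then C ⟨w, h⟩ else ⟨0, hq⟩, fun x y hx hy hxy => ?_⟩
    beta_reduce
    rw [dif_pos hx, dif_pos hy]
    exact C.valid (show (G.induce {w | w ≠ v}).Adj ⟨x, hx⟩ ⟨y, hy⟩ from hxy)

theorem ext_col {V : Type} (G : SimpleGraph V) (v : V) (k : ℕ)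
    (h : (G.induce {w | w ≠ v}).Colorable k) : G.Colorable (k + 1) := by
  classical
  obtain ⟨C⟩ := h
  refine ⟨Coloring.mk (fun w => if h : w ≠ v then (C ⟨w, h⟩).castSucc else Fin.last k) ?_⟩
  intro x y hxy
  by_cases hx : x = v
  · have hy : y ≠ v := fun h => hxy.ne (hx.trans h.symm)
    simp only [hx, hy, ne_eq, not_true_eq_false, not_false_eq_true, dite_true, dite_false]
    exact (Fin.castSucc_lt_last _).ne'
  · by_cases hy : y = v
    · simp only [hx, hy, ne_eq, not_true_eq_false, not_false_eq_true, dite_true, dite_false]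
      exact (Fin.castSucc_lt_last _).ne
    · simp only [hx, hy, ne_eq, not_false_eq_true, dite_true]
      intro h
      exact C.valid (show (G.induce {w | w ≠ v}).Adj ⟨x, hx⟩ ⟨y, hy⟩ from hxy)
        (Fin.castSucc_injective _ h)

/-- Critical chromatic graphs in terms of colourings. -/
theorem crit_iff {V : Type} [Nonempty V] (q : ℕ) (hq : 0 < q) (G : SimpleGraph V) :
    (G.chromaticNumber = ((q + 1 : ℕ) : ℕ∞) ∧
      ∀ v, (G.induce {w | w ≠ v}).chromaticNumber = ((q : ℕ) : ℕ∞)) ↔
      NoCol q G ∧ VCol q G := by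
  rw [noCol_iff, vCol_iff q hq]
  constructor
  · rintro ⟨h1, h2⟩
    refine ⟨fun h => ?_, fun v => ?_⟩
    · have h3 := h.chromaticNumber_le
      rw [h1] at h3
      have h4 : q + 1 ≤ q := by exact_mod_cast h3
      omega
    · exact chromaticNumber_le_iff_colorable.mp (h2 v).le
  · rintro ⟨h1, h2⟩
    constructor
    · obtain ⟨v⟩ : Nonempty V := inferInstance
      have h3 := (chromaticNumber_eq_iff_colorable_not_colorable (G := G) (n := q)).mpr
        ⟨ext_col G v q (h2 v), h1⟩
      rw [h3]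
      push_cast
      rfl
    · intro v
      obtain ⟨p, rfl⟩ : ∃ p, q = p + 1 := ⟨q - 1, by omega⟩
      have h3 := (chromaticNumber_eq_iff_colorable_not_colorable
        (G := G.induce {w | w ≠ v}) (n := p)).mpr
        ⟨h2 v, fun h => h1 (ext_col G v p h)⟩
      rw [h3]
      push_cast
      rfl

end Pool.Agent.H166R2.VC
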